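import Pool.Agent.H516.PCF.StmG

/-! Two more statements for the final assembly of MP_392fd3_nt. -/

namespace Pool.Agent.H516.PCF

open Polynomial NumberField

/-- Facts on the tower.  `Kb` = algebraic closure of `K`, `f = rmap d P Q` on `OnePoint Kb`.  Proof.  The fibres of `f` on `OnePoint Kb` are finite (`f z = c` finite: `P(z) = c Q(z)`, a nonzero polynomial
of degree `≤ d` because `P, Q` are coprime and not both constant; `f z = ∞`: `Q(z) = 0`, and at most one more point, infinity), so the set generating `tower n` is finite and consists of algebraic elements.  Galois: for `σ : Kb ≃ₐ[K] Kb`, `OnePoint.map σ` commutes with `f`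
(`P, Q` have coefficients in `K`) and fixes `α`, so the generating set is stable under `σ`, hence `tower n` is normal over `K` (`IntermediateField.normal_iff_forall_map_le` or similar); characteristic 0.
Monotone: `f` is surjective on `OnePoint Kb` (`P - c Q` has degree `≥ 1` or `f ∞ = c`; for `∞`: `Q` has a root or `f ∞ = ∞`).  Let `β` be finite with `f^[n] β = α`; choose `z` with `f z = β`.  Then `f^[n+1] z = α`.
If `z` is finite it is in `tower (n+1)` and `β = P(z)/Q(z)` too; if `z = ∞` then `β = P.coeff d / Q.coeff d ∈ K`. -/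
def S_TOW : Prop := ∀ (K : Type) [Field K] [NumberField K] (d : ℕ) (P Q : K[X]), IsRat d P Q → ∀ (α : OnePoint K) (n : ℕ),
  FiniteDimensional K (tower K d P Q α n) ∧ IsGalois K (tower K d P Q α n) ∧ tower K d P Q α n ≤ tower K d P Q α (n + 1)

/-- Normalisation.  Proof.  If `Q.coeff d = 0` then `natDegree Q < d = natDegree P`, take `P₁ = P, Q₁ = Q, m = Equiv.refl, q = 0`.  Otherwise `P - X Q` has degree `d + 1`, let `q` be a root; `Q(q) ≠ 0` by coprimality.
Take `P₁ = Pt d P Q q`, `Q₁ = Qt d P Q q` (`S_CONJ`) and `m z = 1/(z - q)` (`m q = ∞`, `m ∞ = 0`; inverse `y ↦ q + 1/y`, `0 ↦ ∞`, `∞ ↦ q`).  The conjugation relation: check `z = q` (`f q = q`, both sides `∞`: `Q₁.coeff d = 0`), `z = ∞`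
(`m ∞ = 0`, values `P₁ 0 = Q.coeff d`, `Q₁ 0 = P.coeff d - q Q.coeff d`), `z` finite, `≠ q` (values at `y = 1/(z-q) ≠ 0` from `S_CONJ`; cases `Q(z) = 0`, `P(z) = q Q(z)`).  Critical points: for `y ≠ 0` from the formula for the Wronskian; `y = 0` the last clause of
`S_CONJ`; `z = q`: `(wr P₁ Q₁).coeff (2d-2) = (d - (d-1)) * leadingCoeff P₁ * Q₁.coeff (d-1) = Q(q) * (wr P Q)(q)/Q(q)` (compare `S_WDEG`; the coefficient of `X^(2d-2)` of `P₁' Q₁ - P₁ Q₁'` for `deg P₁ = d`, `deg Q₁ ≤ d-1` is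
`(d - (d-1)) P₁.coeff d * Q₁.coeff (d-1)`), so it vanishes iff `(wr P Q)(q) = 0`.  Coefficients: `taylor` and `reflect` do not leave `E`. -/
def S_NORM : Prop := ∀ (k : Type) [Field k] [CharZero k] [IsAlgClosed k] (d : ℕ) (P Q : k[X]), IsRat d P Q →
  ∃ (P₁ Q₁ : k[X]) (m : OnePoint k ≃ OnePoint k) (q : k), Nrm d P₁ Q₁ ∧
    (∀ z, m (rmap d P Q z) = rmap d P₁ Q₁ (m z)) ∧ (∀ z, IsCrit d P Q z ↔ IsCrit d P₁ Q₁ (m z)) ∧
    ∀ E : Subfield k, q ∈ E → (∀ i, P.coeff i ∈ E) → (∀ i, Q.coeff i ∈ E) →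
      (∀ i, P₁.coeff i ∈ E ∧ Q₁.coeff i ∈ E) ∧
      (∀ x ∈ E, ∀ y : k, m (x : OnePoint k) = (y : OnePoint k) → y ∈ E) ∧
      (∀ y : k, m OnePoint.infty = (y : OnePoint k) → y ∈ E)

end Pool.Agent.H516.PCF
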