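import Pool.Agent.H516.PCF.Defs

/-! Statements of the global part (change of coordinate, places, tameness) of the theorem on
postcritically finite towers (MP_392fd3_nt). -/

namespace Pool.Agent.H516.PCF

open Polynomial NumberField

/-- A nonrepelling fixed point.  Here infinity is repelling: with `a = P.leadingCoeff`, `b = Q.coeff (d-1)`, `b ≠ 0`, `w b < w a`.  Proof.  `H = P - X Q` has leading coefficient `a - b ≠ 0` in degree `d`,
`w (a-b) = w b`.  If `H` has a multiple root `q`: `Q(q) ≠ 0` (else `P(q) = 0`, not coprime); `H'(q) = P'(q) - Q(q) - q Q'(q)` and `P(q) = q Q(q)`, so `(wr P Q)(q) = P'(q)Q(q) - P(q)Q'(q) = Q(q)(H'(q) + Q(q)) = Q(q)^2`,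
the multiplier is `1`, `w 1 = 0`.  Otherwise `H` has `d` simple roots `q`, with `H'(q) = Q(q) (λ_q - 1)`, `λ_q = (wr P Q)(q)/Q(q)^2`.  Lagrange interpolation of `Q` (degree `≤ d-1`) at the `d` roots, coefficient of `X^(d-1)`:
`Σ_q Q(q) / H'(q) = b / (a - b)`, i.e. `Σ_q 1/(λ_q - 1) = b/(a-b)`, which has valuation `0`.  If all `λ_q ≠ 0` with `w λ_q < 0` then `w (1/(λ_q - 1)) = -w λ_q > 0` for all `q`, so the sum has positive valuation, contradiction. -/
def S_NREP : Prop := ∀ (F : Type) [Field F] [CharZero F] [IsAlgClosed F] (p : ℕ) (w : F → ℝ), p.Prime → NA p w →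
  ∀ (d : ℕ) (P Q : F[X]), Nrm d P Q → Q.coeff (d - 1) ≠ 0 → w (Q.coeff (d - 1)) < w P.leadingCoeff →
  ∃ q, P.eval q = q * Q.eval q ∧ Q.eval q ≠ 0 ∧
    ((wr P Q).eval q / Q.eval q ^ 2 = 0 ∨ 0 ≤ w ((wr P Q).eval q / Q.eval q ^ 2))

/-- Change of coordinate `y = 1/(x-q)` at a finite fixed point `q` of `P/Q` (any rational function of degree `d`).  Proof.  For `deg R ≤ d` and `y ≠ 0`: `(ct d q R)(y) = y^d R(q + 1/y)`
(`Polynomial.eval₂_reflect..`, `taylor_eval`); `(ct d q R)(0) = R.coeff d`; the coefficient of `y^j` in `ct d q R` is the coefficient of `z^(d-j)` in `R(q+z)`.  So `Pt` has leading coefficient `Q(q) ≠ 0` in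
degree `d`, `Qt` has coefficient `P(q) - qQ(q) = 0` in degree `d` and `(P - qQ)'(q) = P'(q) - q Q'(q) = (wr P Q)(q) / Q(q)` in degree `d - 1`.  `Qt ≠ 0`: otherwise `P = q Q`, not coprime (`Q` would be constant and `P` too, `d ≥ 2`).
Coprime: a common root `y ≠ 0` (in an algebraic closure) gives a common root `q + 1/y` of `P, Q`; a common root `0` gives `P.coeff d = Q.coeff d = 0`, contradicting `deg`.  Wronskian: `Pt/Qt (y) = 1/(f(q+1/y) - q)`;
derivative; or directly from the formulas for `Pt`, `Qt` (for `y ≠ 0`). -/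
def S_CONJ : Prop := ∀ (k : Type) [Field k] [CharZero k] (d : ℕ) (P Q : k[X]) (q : k), IsRat d P Q →
  P.eval q = q * Q.eval q → Q.eval q ≠ 0 →
  Nrm d (Pt d P Q q) (Qt d P Q q) ∧ (Pt d P Q q).leadingCoeff = Q.eval q ∧
  (Qt d P Q q).coeff (d - 1) = (wr P Q).eval q / Q.eval q ∧
  (∀ y, y ≠ 0 → (Pt d P Q q).eval y = y ^ d * Q.eval (q + y⁻¹) ∧
    (Qt d P Q q).eval y = y ^ d * (P.eval (q + y⁻¹) - q * Q.eval (q + y⁻¹)) ∧
    (wr (Pt d P Q q) (Qt d P Q q)).eval y = y ^ (2 * d - 2) * (wr P Q).eval (q + y⁻¹)) ∧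
  (Pt d P Q q).eval 0 = Q.coeff d ∧ (Qt d P Q q).eval 0 = P.coeff d - q * Q.coeff d ∧
  (wr (Pt d P Q q) (Qt d P Q q)).eval 0 = (wr P Q).coeff (2 * d - 2)

/-- Change of coordinate and iterates, for normalised `P, Q` and a finite fixed point `q`.  Proof.  Induction on `n` with `S_EVAL` for both pairs (`S_CONJ`): put `y = 1/(x-q)`; if `qn n x ≠ 0` and `fn n x ≠ q` then the new
`qn n y ≠ 0` and the new `fn n y = 1/(fn n x - q)`; the new derivative is `dn n x (x-q)^2/(fn n x - q)^2` (chain rule: `dn (n+1) x = h (fn n x) dn n x` with `h z = (wr P Q)(z)/Q(z)^2`, and for `n = 1` it is the formula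
`h~(1/(z-q)) = h(z) (z-q)^2/(f(z)-q)^2` from `S_CONJ`).  Since `q` is fixed, `fn (n+1) x ≠ q` implies `fn n x ≠ q`. -/
def S_CONJN : Prop := ∀ (k : Type) [Field k] [CharZero k] (d : ℕ) (P Q : k[X]) (q : k), Nrm d P Q →
  P.eval q = q * Q.eval q → ∀ (n : ℕ) (x : k), x ≠ q → (qn d P Q n).eval x ≠ 0 → fn d P Q n x ≠ q →
  (qn d (Pt d P Q q) (Qt d P Q q) n).eval (x - q)⁻¹ ≠ 0 ∧
  fn d (Pt d P Q q) (Qt d P Q q) n (x - q)⁻¹ = (fn d P Q n x - q)⁻¹ ∧
  dn d (Pt d P Q q) (Qt d P Q q) n (x - q)⁻¹ = dn d P Q n x * (x - q) ^ 2 / (fn d P Q n x - q) ^ 2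

/-- Average distance to a fixed point.  Proof.  `Π_{β ∈ fib n γ} (q - β) = gp n γ (q) / a_n`, `a_n = a^(geom d n)`; `gp n γ (q) = qn n q (q - γ)` since `fn n q = q`, and
`qn n q = Q(q)^(geom d n)` (`S_EVAL`: `qn (n+1) q = (qn n q)^d Q(q)`; `geom d (n+1) = d geom d n + 1`).  All `β ≠ q` because `fn n q = q ≠ γ`.  Take valuations. -/
def S_UQ : Prop := ∀ (F : Type) [Field F] [CharZero F] [IsAlgClosed F] (p : ℕ) (w : F → ℝ), p.Prime → NA p w →
  ∀ (d : ℕ) (P Q : F[X]), Nrm d P Q → ∀ q, P.eval q = q * Q.eval q → ∀ γ, γ ≠ q → ∀ n,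
  ((fib d P Q n γ).map fun β => w (β - q)).sum = geom d n * (w (Q.eval q) - w P.leadingCoeff) + w (q - γ) ∧
  (∀ β ∈ fib d P Q n γ, β ≠ q)

/-- Extension of a finite place to the algebraic closure.  Proof.  Let `K_v` be the completion, `C_v` its algebraic closure with the spectral norm (multiplicative, nonarchimedean, extends the norm of `K_v`;
`spectralNorm_mul` / `spectralNorm.normedField`), embed `F → C_v` over `K` (`IsAlgClosed.lift`), get a nonarchimedean absolute value `|.|` on `F` with `|x| = v x` for `x ∈ K`.  `p` := the residue characteristic (`v p < 1`).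
The value group of `v` on `K` is `{N(v)^z}` for the norm `N(v) > 1` of the prime; `c := log N(v)`, `w x := -log |x| / c`. -/
def S_VAL : Prop := ∀ (K : Type) [Field K] [NumberField K] (F : Type) [Field F] [Algebra K F] [IsAlgClosed F]
  [Algebra.IsAlgebraic K F] (v : FinitePlace K), ∃ p : ℕ, p.Prime ∧ ∃ w : F → ℝ, NA p w ∧ ∃ c : ℝ, 0 < c ∧
    ∀ x : K, x ≠ 0 → (∃ z : ℤ, w (algebraMap K F x) = z) ∧ v x = Real.exp (-(c * w (algebraMap K F x)))

/-- Tame extensions and value groups.  Proof.  `E := K' ⊔ L`, finite Galois over `K'` (`L/K` is Galois).  `𝔓 := {x ∈ 𝓞 E : x = 0 ∨ w x > 0}` is a prime ideal of `𝓞 E` (`w ≥ 0` on integers) containing `p`; let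
`𝔓_L`, `𝔭`, `𝔭'` be its contractions to `L, K, K'`.  Restriction `Gal(E/K') → Gal(L/K)` is injective and maps the inertia group of `𝔓` into that of `𝔓_L`.  In a finite Galois extension of number fields the inertia group has order
`e` (`Ideal.card_inertia_eq..`), so `e(𝔓/𝔭')` divides `e(𝔓_L/𝔭)`, which is prime to `p` (hypothesis).  Finally for `x ∈ E`, `x ≠ 0`: choose `t ∈ 𝔭'` with `v_𝔭'(t) = 1`, so `v_𝔓(t) = e`; then `v_𝔓(x^e / t^(v_𝔓(x))) = 0`, hence
`w (x^e) = v_𝔓(x) w(t) ∈ ℤ` (`w` vanishes on elements of `𝔓`-order 0: they are quotients of integers outside `𝔓`). -/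
def S_TAME : Prop := ∀ (K : Type) [Field K] [NumberField K] (L : IntermediateField K (AlgebraicClosure K))
  [FiniteDimensional K L] [IsGalois K L],
  (∀ 𝔓 : Ideal (𝓞 L), 𝔓.IsPrime → ∀ p : ℕ, p.Prime → (p : 𝓞 L) ∈ 𝔓 → ¬ p ∣ Ideal.ramificationIdx' (𝔓.under (𝓞 K)) 𝔓) →
  ∀ (K' : IntermediateField K (AlgebraicClosure K)) [FiniteDimensional K K'] (p : ℕ) (w : AlgebraicClosure K → ℝ), p.Prime →
  NA p w → (∀ x ∈ K', x ≠ 0 → ∃ z : ℤ, w x = z) → ∀ x ∈ K' ⊔ L, x ≠ 0 → IsZp p (w x)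

/-- The theorem for normalised data.  Proof (by helper516): from `S_GLOB, S_VAL, S_RF, S_CMP, S_NREP, S_CONJ, S_CONJN, S_UQ, S_LOC`. -/
def S_MAIN : Prop := ∀ (K : Type) [Field K] [NumberField K] (F : Type) [Field F] [Algebra K F] [IsAlgClosed F]
  [Algebra.IsAlgebraic K F] (d : ℕ) (P Q : K[X]) (A : Set K), Nrm d P Q → Post P Q A → (wr P Q).Splits → Q.Splits →
  (P - X * Q).Splits → (∀ q, P.eval q = q * Q.eval q → q ∈ A ∧
    ∀ x : F, (P.map (algebraMap K F)).eval x = algebraMap K F q * (Q.map (algebraMap K F)).eval x →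
      x ∈ algebraMap K F '' A) → ∀ (O : Set F) (t₀ : K), algebraMap K F t₀ ∈ O → O.Infinite →
  (∀ x ∈ A, algebraMap K F x ∉ O) →
  (∀ t ∈ O, ∀ x, (Q.map (algebraMap K F)).eval x ≠ 0 →
    (P.map (algebraMap K F)).eval x / (Q.map (algebraMap K F)).eval x = t → x ∈ O) →
  (∀ p : ℕ, p.Prime → ∀ w : F → ℝ, NA p w → (∀ x : K, x ≠ 0 → ∃ z : ℤ, w (algebraMap K F x) = z) →
    ∀ x ∈ O, (∀ y ∈ O, x ≠ y → IsZp p (w (x - y))) ∧ ∀ y : K, x ≠ algebraMap K F y → IsZp p (w (x - algebraMap K F y))) →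
  False

/-- the field generated by the coordinates of the points of `(P/Q)^{-n}(α)` -/
noncomputable def tower (K : Type) [Field K] (d : ℕ) (P Q : K[X]) (α : OnePoint K) (n : ℕ) :
    IntermediateField K (AlgebraicClosure K) :=
  IntermediateField.adjoin K {x : AlgebraicClosure K |
    (rmap d (P.map (algebraMap K (AlgebraicClosure K))) (Q.map (algebraMap K (AlgebraicClosure K))))^[n]
      (x : OnePoint (AlgebraicClosure K)) = OnePoint.map (algebraMap K (AlgebraicClosure K)) α}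

/-- The full theorem. -/
def S_FULL : Prop := ∀ (K : Type) [Field K] [NumberField K] (d : ℕ) (P Q : K[X]), IsRat d P Q → ∀ (α : OnePoint K),
  (∀ c, IsCrit d (P.map (algebraMap K (AlgebraicClosure K))) (Q.map (algebraMap K (AlgebraicClosure K))) c →
    (Set.range fun n : ℕ => (rmap d (P.map (algebraMap K (AlgebraicClosure K)))
      (Q.map (algebraMap K (AlgebraicClosure K))))^[n] c).Finite) →
  {z | ∃ n : ℕ, (rmap d (P.map (algebraMap K (AlgebraicClosure K))) (Q.map (algebraMap K (AlgebraicClosure K))))^[n] z =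
      OnePoint.map (algebraMap K (AlgebraicClosure K)) α}.Infinite →
  ∃ n, 1 ≤ n ∧ ∃ 𝔓 : Ideal (𝓞 (tower K d P Q α n)), 𝔓.IsPrime ∧ ∃ p : ℕ, p.Prime ∧ (p : 𝓞 (tower K d P Q α n)) ∈ 𝔓 ∧
    p ∣ Ideal.ramificationIdx' (𝔓.under (𝓞 K)) 𝔓

end Pool.Agent.H516.PCF
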