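import Pool.Agent.H516.PCF.Defs

/-! Statements of the local part of the theorem on postcritically finite towers (MP_392fd3_nt).
`F` is an algebraically closed field of characteristic 0 with a real valuation `w`, `w p > 0`.
A disc is a pair `(a, ρ)`; smaller discs have larger `ρ`. -/

namespace Pool.Agent.H516.PCF

open Polynomial

/-- Basic facts.  Proof.  `w 1 = 0` from `1 * 1 = 1`; `w (-1) = 0` since `2 w(-1) = w 1`; inverses, powers.  Triangle inequality from `add`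
with `a - c = (a - b) + (b - c)`; if `w x < w y` then `w (x+y) = w x` (else `w x = w ((x+y) - y) > w x`).  Integers: `w m ≥ 0` for
all nonzero integers by induction on the absolute value from `w 1 = 0`, `add`; if `p ∤ m` then `u m + v p = 1` and
`w m > 0` would give `0 = w 1 ≥ min (..) > 0`; so `w m = 0`; in general `m = p^e m'`.  Roots of unity: `r w ζ = w 1 = 0`.
Density: for `n ≥ 1` there is `y` with `y^n = p`, `w y = w p / n` arbitrarily small, and integral multiples of it. -/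
def S_NAB : Prop := ∀ (F : Type) [Field F] [CharZero F] [IsAlgClosed F] (p : ℕ) (w : F → ℝ), p.Prime → NA p w →
  w 1 = 0 ∧ (∀ x, x ≠ 0 → w (-x) = w x) ∧ (∀ x, x ≠ 0 → w x⁻¹ = -w x) ∧ (∀ x, x ≠ 0 → ∀ n : ℕ, w (x ^ n) = n * w x) ∧
  (∀ x y, x ≠ 0 → y ≠ 0 → w (x / y) = w x - w y) ∧
  (∀ x y, x ≠ y → w (x - y) = w (y - x)) ∧
  (∀ x y, x ≠ 0 → y ≠ 0 → w x < w y → x + y ≠ 0 ∧ w (x + y) = w x) ∧
  (∀ a b c, a ≠ b → b ≠ c → a ≠ c → min (w (a - b)) (w (b - c)) ≤ w (a - c)) ∧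
  (∀ a b c, a ≠ b → b ≠ c → w (a - b) < w (b - c) → a ≠ c ∧ w (a - c) = w (a - b)) ∧
  (∀ m : ℤ, m ≠ 0 → w (m : F) = w (p : F) * padicValInt p m) ∧
  (∀ (ζ : F) (r : ℕ), 0 < r → ζ ^ r = 1 → w ζ = 0) ∧
  (∀ x y : ℝ, x < y → ∃ u : F, u ≠ 0 ∧ x < w u ∧ w u < y)

/-- Gauss valuations.  Proof.  Roots of a product; each `mn w a z` is continuous, nondecreasing, piecewise linear in `ρ`.  Change of
centre: if `b = a` or `ρ ≤ w (a - b)` then for `ρ' ≤ ρ` and every `z`: `mn w a z ρ' = mn w b z ρ'` (ultrametric), and `z` is in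
the closed disc `(a, ρ')` iff it is in `(b, ρ')`; similarly for open discs.  Local linearity: `mn w a z (ρ+h) = mn w a z ρ + h` if
`z = a` or `w (a-z) > ρ` (`h` small), constant otherwise; `mn w a z (ρ-h) = mn w a z ρ - h` if `z = a` or `w (a-z) ≥ ρ`,
constant otherwise.  For `0 < h < ε` no `w (a-z)` equals `ρ ± h`. -/
def S_GVB : Prop := ∀ (F : Type) [Field F] [CharZero F] [IsAlgClosed F] (p : ℕ) (w : F → ℝ), p.Prime → NA p w →
  (∀ U V : F[X], U ≠ 0 → V ≠ 0 → ∀ a ρ, gv w (U * V) a ρ = gv w U a ρ + gv w V a ρ) ∧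
  (∀ (c : F) (U : F[X]), c ≠ 0 → U ≠ 0 → ∀ a ρ, gv w (C c * U) a ρ = w c + gv w U a ρ) ∧
  (∀ U : F[X], ∀ a, Continuous fun ρ => gv w U a ρ) ∧
  (∀ U : F[X], ∀ a b ρ, (b = a ∨ ρ ≤ w (a - b)) → ∀ ρ' ≤ ρ, gv w U a ρ' = gv w U b ρ' ∧
    ccnt w U a ρ' = ccnt w U b ρ') ∧
  (∀ U : F[X], ∀ a b ρ, (b = a ∨ ρ < w (a - b)) → ∀ ρ' ≤ ρ, cnt w U a ρ' = cnt w U b ρ') ∧
  (∀ U : F[X], ∀ a ρ, ∃ ε > 0, ∀ h : ℝ, 0 ≤ h → h < ε →
    gv w U a (ρ + h) = gv w U a ρ + cnt w U a ρ * h ∧ gv w U a (ρ - h) = gv w U a ρ - ccnt w U a ρ * h ∧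
    cnt w U a (ρ + h) = cnt w U a ρ ∧
    (0 < h → ¬ brk w U a (ρ + h) ∧ ¬ brk w U a (ρ - h) ∧ cnt w U a (ρ - h) = ccnt w U a ρ))

/-- Generic points.  Proof.  Only finitely many conditions: for `s ∈ T` with `s = a` or `w (s-a) ≠ w u₀` the
condition is automatic for every `u` with `w u = w u₀` (ultrametric).  For `s` with `w (s-a) = w u₀` and each of the finitely many `ζ` we need
`w (u ζ - (s-a)) = w u₀`.  Take `u = u₀ m` with `m ∈ {1, 2, .., }`... more precisely choose among infinitely many elements of valuation 0 which are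
pairwise incongruent (`w (y - y') = 0`): e.g. roots of unity of order prime to `p` (for `ξ ≠ 1`, `ξ^m = 1`, `p ∤ m`: `Π_{ξ ≠ 1} (1 - ξ) = m` has
valuation 0 and all factors have valuation `≥ 0`).  For fixed `(s, ζ)` at most one of them, `y`, has `w (u₀ y ζ - (s - a)) > w u₀`. -/
def S_GEN : Prop := ∀ (F : Type) [Field F] [CharZero F] [IsAlgClosed F] (p : ℕ) (w : F → ℝ), p.Prime → NA p w →
  ∀ (T : Set F), T.Finite → ∀ (a u₀ : F), u₀ ≠ 0 → ∀ r : ℕ, 0 < r →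
  ∃ u, u ≠ 0 ∧ w u = w u₀ ∧ ∀ ζ : F, ζ ^ r = 1 → ∀ s ∈ T, a + u * ζ ≠ s ∧ w (a + u * ζ - s) = mn w a s (w u₀)

/-- Addition of functions.  Proof.  For `ρ = w u₀`: take `x = a + u` generic for all roots of `U₁, U₂, U₃` (`S_GEN`, `r = 1`); then
`w (U_i.eval x) = gv w U_i a ρ` (factorisation of `U_i`, algebraically closed), and the claims are the ones for `w`.  For general `ρ`: the value group is dense
(`S_NAB`) and `gv` is continuous (`S_GVB`), which gives the first inequality; the second follows from it (if `gv U₁ < gv U₂` and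
`gv U₃ > gv U₁` then `U₁ = U₃ - U₂` contradicts the inequality). -/
def S_UM : Prop := ∀ (F : Type) [Field F] [CharZero F] [IsAlgClosed F] (p : ℕ) (w : F → ℝ), p.Prime → NA p w →
  ∀ (U₁ U₂ U₃ : F[X]), U₁ ≠ 0 → U₂ ≠ 0 → U₃ ≠ 0 → U₃ = U₁ + U₂ → ∀ a ρ,
    min (gv w U₁ a ρ) (gv w U₂ a ρ) ≤ gv w U₃ a ρ ∧
    (gv w U₁ a ρ < gv w U₂ a ρ → gv w U₃ a ρ = gv w U₁ a ρ) ∧
    (gv w U₂ a ρ < gv w U₁ a ρ → gv w U₃ a ρ = gv w U₂ a ρ)

/-- Averages over roots of unity.  Proof.  `X^r - u^r = Π_{ζ^r = 1} (X - ζ u)`; logarithmic derivative at `t`: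
`r t^(r-1) / (t^r - u^r) = Σ 1/(t - ζ u)`; and `ζu/(ζu - t) = 1 + t/(ζ u - t)`. -/
def S_AVG : Prop := ∀ (F : Type) [Field F] [CharZero F] [IsAlgClosed F] (r : ℕ), 0 < r → ∀ (u t : F), u ^ r ≠ t ^ r →
  (Polynomial.nthRootsFinset r (1 : F)).card = r ∧
  ∑ ζ ∈ Polynomial.nthRootsFinset r (1 : F), ζ * u / (ζ * u - t) = r * u ^ r / (u ^ r - t ^ r)

/-- Divisibility of slopes (key lemma).  Let `m` be the number of zeros minus the number of poles of `U/V` in the open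
disc `(a, ρ)`.  Proof.  All terms are continuous in `ρ` and `cnt` is constant near `ρ` (no break at `ρ`, `S_GVB`), so we may assume
`ρ = w u₀` (density, `S_NAB`).  Suppose `m ≠ 0`.  `J := wr U V`.  Let `r` be prime to `p`, large.  Choose `u` by `S_GEN` for `T` = all roots of `U, V, J` and this `r`.
For each `ζ`, `x_ζ = a + ζ u`: `h(x) := U'/U(x) - V'/V(x) = J(x)/(U(x)V(x)) = Σ_{z ∈ U.roots} 1/(x-z) - Σ_{z ∈ V.roots} 1/(x-z)`, and
`w (h (x_ζ)) = gv J - gv U - gv V =: B` (at `(a, ρ)`).  Average of `ζ u h(x_ζ)` over `ζ` (`S_AVG` with `t = z - a`):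
`(1/r) Σ_ζ ζ u h(x_ζ) = Σ_{z ∈ U.roots} 1/(1 - ((z-a)/u)^r) - Σ_{z ∈ V.roots} (same)`; the term is `1 + small` if `z` is in the open disc (`z = a` or `w (z-a) > ρ`) and
small otherwise (`w(z-a) < ρ`), with `w(small) ≥ r δ`, `δ = min |w(z-a) - ρ| > 0` (all roots; no root at distance exactly `ρ`).  So
`m + small` has valuation `≥ ρ + B` (or is zero) and for `r δ > w m` (and `p ∤ r`) we get `w m ≥ ρ + B`. -/
def S_SL : Prop := ∀ (F : Type) [Field F] [CharZero F] [IsAlgClosed F] (p : ℕ) (w : F → ℝ), p.Prime → NA p w →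
  ∀ (U V : F[X]), U ≠ 0 → V ≠ 0 → wr U V ≠ 0 → ∀ a ρ, ¬ brk w U a ρ → ¬ brk w V a ρ →
  ∀ m : ℤ, m = (cnt w U a ρ : ℤ) - cnt w V a ρ → m = 0 ∨
    ρ + gv w (wr U V) a ρ - gv w U a ρ - gv w V a ρ ≤ w (m : F)

/-- Path lemma (maximum principle).  Proof.  For a disc call its weight the number of roots of `U` minus the number of roots of
`V` in it (with multiplicity); `φ_a(ρ) := gv U a ρ - gv V a ρ`; its slope just left of `ρ` is the weight of the closed disc `(a, ρ)`.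
Case 1: every closed disc `(β, ρ)` has weight `≤ 0`.  Then `φ_β` is nonincreasing in `ρ`, for `ρ` large it is the constant
`w (U β) - w (V β) ≥ V₀`, so `φ_β ≥ V₀` everywhere; a huge disc contains all roots, so `natDegree U ≤ natDegree V`.
Case 2: otherwise let `ρ₁` be the largest `ρ` such that the closed disc `(β, ρ)` has weight `≥ 1` (the weight is a step function, zero for large
`ρ`, and changes only at the finitely many values `w (β - z)`, so the maximum exists).  As before `φ_β ≥ V₀` on `[ρ₁, ∞)`.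
Claim: a closed disc `D` of weight `≥ 1` contains a point `c` (a root) such that every closed disc `(c, ρ) ⊆ D` has weight `≥ 1`: induction on the number
of distinct roots of `U V` in `D`; if there is only one, take it; else let `σ` be the minimum of `w(z - z')` over the
distinct roots in `D`; the roots in `D` are partitioned into the classes `w(z - z') > σ` (at least two classes, each with fewer roots), some
class has weight `≥ 1`, it is the set of roots in a smaller closed disc; use induction there; the closed discs around `c` between are `D`-like (contain all roots of `D`) or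
have the roots of that class or are inside.  For this `c` in the disc `(β, ρ₁)`: `φ_c` is nondecreasing on `[ρ₁, ∞)` and `φ_c(ρ₁) = φ_β(ρ₁) ≥ V₀`; the
disc `(c, ρ)` for large `ρ` contains only `c`, so `c` is a root with multiplicity in `U` greater than in `V`.  `w (β - c) ≥ ρ₁`. -/
def S_PT : Prop := ∀ (F : Type) [Field F] [CharZero F] [IsAlgClosed F] (p : ℕ) (w : F → ℝ), p.Prime → NA p w →
  ∀ (U V : F[X]), U ≠ 0 → V ≠ 0 → ∀ (β : F) (V₀ : ℝ), U.eval β ≠ 0 → V.eval β ≠ 0 →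
  V₀ ≤ w (U.eval β) - w (V.eval β) →
  (∃ c, rootMultiplicity c V < rootMultiplicity c U ∧ ∀ ρ, w (β - c) ≤ ρ →
    V₀ ≤ gv w U β ρ - gv w V β ρ ∧ V₀ ≤ gv w U c ρ - gv w V c ρ) ∨
  (U.natDegree ≤ V.natDegree ∧ ∀ ρ, V₀ ≤ gv w U β ρ - gv w V β ρ)

/-- Escape region of the nonrepelling fixed point infinity.  Proof.  Let `e = Q.natDegree < d`.  If `w x` is very negative the leading terms
dominate: `w (P x) = w a + d w x`, `w (Q x) = w b + e w x` (`b` the leading coefficient of `Q`).  So `w (P x / Q x) = w a - w b + (d - e) w x`.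
If `e = d - 1` then `w a ≤ w b` and this is `≤ w x`.  If `e ≤ d - 2` it is `≤ w x` as soon as `w x ≤ -|w a - w b|`. -/
def S_ESC : Prop := ∀ (F : Type) [Field F] [CharZero F] [IsAlgClosed F] (p : ℕ) (w : F → ℝ), p.Prime → NA p w →
  ∀ (d : ℕ) (P Q : F[X]), Nrm d P Q → (Q.coeff (d - 1) = 0 ∨ w P.leadingCoeff ≤ w (Q.coeff (d - 1))) →
  ∃ R₀ : ℝ, ∀ R ≥ R₀, ∀ x, x ≠ 0 → w x < -R → Q.eval x ≠ 0 ∧ P.eval x ≠ 0 ∧ w (P.eval x / Q.eval x) < -R

/-- Critical multiplicities.  Proof.  If `qn n x = 0` with multiplicity `μ ≥ 1` then `pn n x ≠ 0` and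
`wr = pn' qn - pn qn'` has a zero of order exactly `μ - 1` at `x` (characteristic 0), less than `2 μ`. -/
def S_MULT : Prop := ∀ (k : Type) [Field k] [CharZero k] (U V : k[X]), IsCoprime U V → V ≠ 0 → wr U V ≠ 0 → ∀ x, V.eval x = 0 →
  rootMultiplicity x (wr U V) < rootMultiplicity x (V ^ 2)

/-- Paths from `γ` to a postcritical point.  Proof.  Fix `γ ∈ O`, `V > 0`.  By `unb` there are `n, β ∈ fib n γ` with `w (dn n β) ≥ V`, i.e.
`w (W(β)) - w (qn(β)^2) ≥ V` with `W = wr (pn n) (qn n)`, `W(β) ≠ 0` by `S_FIB` (`γ ∉ A`).  Apply `S_PT` to `U = W`, `V = (qn n)^2`.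
Second alternative: `deg W ≤ 2 deg qn`; by `S_WDEG`, `deg W = d^n + deg qn - 1`, so `deg qn + 1 = d^n` (`deg qn < d^n`), `deg W = 2 deg qn`, and
`lead W = lead pn * lead qn` (the factor is `1`).  For `ρ` very negative `gv W β ρ - 2 gv qn β ρ = w (lead W) - 2 w (lead qn) = w (lead pn) - w (lead qn)`
which by the last clause of `S_DEG` is `n (w a - w (Q.coeff (d-1))) ≤ 0 < V` (`Q.coeff (d-1) ≠ 0` since `lead qn ≠ 0`, if `n ≥ 1`;
if `n = 0` it is `0`), contradiction.  First alternative: `c` with `rootMultiplicity c (qn^2) < rootMultiplicity c W`, so `qn c ≠ 0` by `S_MULT` and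
`W(c) = 0`, so `κ := fn n c ∈ A` by `S_ORB`.  `β ≠ c` as `W(β) ≠ 0`.  This is `PathD γ κ V n β c` with some `κ ∈ A`; `A` is finite, so one `κ` works for
arbitrarily large, hence (monotonicity in `V`) for all `V`. -/
def S_PATH : Prop := ∀ (F : Type) [Field F] [CharZero F] [IsAlgClosed F] (p : ℕ) (w : F → ℝ) (d : ℕ) (P Q : F[X]) (A O : Set F),
  LocD p w d P Q A O → ∀ γ ∈ O, ∃ κ ∈ A, ∀ V : ℝ, ∃ n β c, PathD w d P Q γ κ V n β c

/-- Everything happens in a bounded region.  Proof.  Choose `R ≥ R₀` (`S_ESC`) with `w γ ≥ -R` or `γ = 0`, and the same for `κ`.  If `x ≠ 0`,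
`w x < -R`, then by induction `qn n x ≠ 0`, `fn n x ≠ 0`, `w (fn n x) < -R` (`S_EVAL`).  So `β = 0` or `w β ≥ -R`, and the same for `c`; hence
`w (β - c) ≥ -R` if moreover `-R ≤ 0`... (use the ultrametric inequality and the cases `β = 0`, `c = 0`). -/
def S_REG : Prop := ∀ (F : Type) [Field F] [CharZero F] [IsAlgClosed F] (p : ℕ) (w : F → ℝ) (d : ℕ) (P Q : F[X]) (A O : Set F),
  LocD p w d P Q A O → ∀ γ κ : F, ∃ R : ℝ, ∀ n β c V, PathD w d P Q γ κ V n β c → -R ≤ w (β - c)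

/-- `O` is closed under fibres of iterates.  Proof.  Induction on `n` with `S_EVAL` (`fn (n+1) x = f (fn n x)`): if `fn (n+1) x = γ ∈ O` then
`fn n x ∈ O` by `bwd`, so `x ∈ O`.  Different formulation: `x ∈ fib n γ` iff `qn n x ≠ 0`, `fn n x = γ` (`S_FIB`).  Also the linear relation between
three fibre polynomials: `(γ-γ')(pn - x qn) = (x-γ')(pn - γ qn) + (γ - x)(pn - γ' qn)`, and the Wronskians. -/
def S_OFIB : Prop := ∀ (F : Type) [Field F] [CharZero F] [IsAlgClosed F] (p : ℕ) (w : F → ℝ) (d : ℕ) (P Q : F[X]) (A O : Set F),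
  LocD p w d P Q A O → ∀ n,
    (∀ γ ∈ O, ∀ x ∈ fib d P Q n γ, x ∈ O) ∧ (∀ γ, gp d P Q n γ ≠ 0) ∧ qn d P Q n ≠ 0 ∧
    wr (pn d P Q n) (qn d P Q n) ≠ 0 ∧
    (∀ γ, wr (gp d P Q n γ) (qn d P Q n) = wr (pn d P Q n) (qn d P Q n)) ∧
    (∀ γ γ', wr (gp d P Q n γ) (gp d P Q n γ') = C (γ - γ') * wr (pn d P Q n) (qn d P Q n)) ∧
    (∀ γ γ', gp d P Q n γ' = gp d P Q n γ + C (γ - γ') * qn d P Q n) ∧
    (∀ γ γ' x, C (γ - γ') * gp d P Q n x = C (x - γ') * gp d P Q n γ + C (γ - x) * gp d P Q n γ')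

/-- Small slopes are divisible by a high power of `p`.  `g = (f^n - γ)/(f^n - γ')`, `s = vf γ - vf γ'` its Gauss valuation.  Proof.
`S_SL` with `U = gp γ, V = gp γ'`, `wr U V = C (γ-γ') * wr (pn) (qn)` (`S_OFIB`, `S_GVB`):
`w m ≥ ρ + w(γ-γ') + DF - vf γ - vf γ'` (the terms `gv qn` cancel against `DF`).  By `S_UM` applied to
`C(γ - γ') qn = gp γ' - gp γ`: `min (vf γ) (vf γ') ≤ w (γ-γ')`, so `vf γ + vf γ' ≤ 2 w(γ-γ') + |s|`.  Hence
`w m ≥ V - R - w(γ-γ') - |s| ≥ j w p`, and `w m = w p * padicValInt p m` (`S_NAB`). -/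
def S_SMALL : Prop := ∀ (F : Type) [Field F] [CharZero F] [IsAlgClosed F] (p : ℕ) (w : F → ℝ) (d : ℕ) (P Q : F[X]) (A O : Set F),
  LocD p w d P Q A O → ∀ (γ γ' : F), γ ≠ γ' → ∀ (n j : ℕ) (V R : ℝ) (a : F) (ρ : ℝ), V ≤ DF w d P Q n a ρ → -R ≤ ρ →
  ¬ brk w (gp d P Q n γ) a ρ → ¬ brk w (gp d P Q n γ') a ρ →
  R + w (γ - γ') + |vf w d P Q n γ a ρ - vf w d P Q n γ' a ρ| + j * w (p : F) ≤ V →
  (p : ℤ) ^ j ∣ (cnt w (gp d P Q n γ) a ρ : ℤ) - cnt w (gp d P Q n γ') a ρ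

/-- One line.  Proof.  `φ(ρ) = gv U a ρ - gv V a ρ` is piecewise linear on `[ρ', ρ'']` with break points among the numbers
`w (a - z)`, `z` a root of `U V` different from `a`, which are in `ℤ_(p)`; on each piece the slope is divisible by `p^j` and the length is in `ℤ_(p)`.  (Induction on the number
of break points in the open interval, or: `φ(ρ'') - φ(ρ') = Σ_pieces slope * length`.)  `cnt` is the slope, see `S_GVB`. -/
def S_OL : Prop := ∀ (F : Type) [Field F] [CharZero F] [IsAlgClosed F] (p : ℕ) (w : F → ℝ), p.Prime → NA p w →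
  ∀ (U V : F[X]), U ≠ 0 → V ≠ 0 → ∀ (a : F) (j : ℕ) (ρ' ρ'' : ℝ), ρ' ≤ ρ'' → IsZp p ρ' → IsZp p ρ'' →
  (∀ z ∈ U.roots + V.roots, z ≠ a → IsZp p (w (a - z))) →
  (∀ ρ, ρ' < ρ → ρ < ρ'' → ¬ brk w U a ρ → ¬ brk w V a ρ → (p : ℤ) ^ j ∣ (cnt w U a ρ : ℤ) - cnt w V a ρ) →
  DivZp p j ((gv w U a ρ'' - gv w V a ρ'') - (gv w U a ρ' - gv w V a ρ'))

/-- Crossing lemma.  Proof.  `φ = gv U₁ - gv U₂`, `s = w c₂ - w c₁`, `ψ := gv U₃ - gv U₂ - w c₁` at centre `a`.  By `S_UM` and `S_GVB` applied to `U₃ = C c₁ U₁ + C c₂ U₂`: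
`ψ ≥ min φ s` with equality if `φ ≠ s`.  Near `ρ` there are no breaks, so `φ(ρ+h) = s + m h`, `ψ(ρ+h) = ψ(ρ) + m' h` for small `|h|` (`S_GVB`; without break at
`ρ`, `cnt = ccnt` there).  If `m ≠ 0`: for `h ≠ 0`, `ψ = min φ s`, which is `s` on one side and `s + m h` on the other side: an affine function `ψ(ρ) + m' h` cannot do
that.  So `m = 0`. -/
def S_CROSS : Prop := ∀ (F : Type) [Field F] [CharZero F] [IsAlgClosed F] (p : ℕ) (w : F → ℝ), p.Prime → NA p w →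
  ∀ (U₁ U₂ U₃ : F[X]) (c₁ c₂ : F), U₁ ≠ 0 → U₂ ≠ 0 → U₃ ≠ 0 → c₁ ≠ 0 → c₂ ≠ 0 → U₃ = C c₁ * U₁ + C c₂ * U₂ → ∀ a ρ,
  gv w U₁ a ρ - gv w U₂ a ρ = w c₂ - w c₁ → ¬ brk w U₁ a ρ → ¬ brk w U₂ a ρ → ¬ brk w U₃ a ρ →
  ∃ ε > 0, ∀ ρ', |ρ' - ρ| < ε → gv w U₁ a ρ' - gv w U₂ a ρ' = w c₂ - w c₁

/-- Pure combinatorics.  Proof.  `κ` takes finitely many values on the infinite set `O`: let `Γ ⊆ O` be infinite with `κ γ = κ₀` on `Γ`; `δ(γ) := w (γ - κ₀)`
(`γ ≠ κ₀` since `κ₀ ∈ A`).  (1) `δ` takes at most three values on `Γ`: if `δ(γ₁) < δ(γ₂) < δ(γ₃) < δ(γ₄)` then `w (γ_i - γ_j) = δ(γ_i)` for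
`i < j`; apply `FC` for `γ = γ₂, γ' = γ₄, x = γ₁, y = γ₃`: value of `x` is `δ₁ - δ₁ = 0`, of `y` it is `δ₂ - δ₃ < 0`, of `κ₀` it is `δ₂ - δ₄ ≤ δ₂ - δ₃`; contradiction.
So some `Γ' = {γ ∈ Γ : δ(γ) = δ}` is infinite; all its mutual distances are `≥ δ`.  (2) Every `γ ∈ Γ'` sees at most two distances in `Γ'`: if `w(x-γ) = t₁ > w(y-γ) = t₂ >
w(γ'-γ) = t₃` with `x, y, γ' ∈ Γ'`, then the values are `t₁ - t₃ > t₂ - t₃ ≥ 0 = δ - δ`, contradiction to `FC`.  (3) Pick `γ₀ ∈ Γ'`; infinitely many elements `S` of `Γ'` have the same distance `t` from `γ₀`;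
mutual distances in `S` are `≥ t`; every `x ∈ S` sees `t` (to `γ₀`) and at most one other distance.  The relation `x = y ∨ w (x - y) > t` is an equivalence relation on `S`; if it has infinitely many classes choose
representatives (mutual distance `t`); otherwise some class is infinite, each of its elements sees only one distance `t'(x)` in the class, and
`t'(x) = w (x - y) = t'(y)`. -/
def S_COMB : Prop := ∀ (F : Type) [Field F] [CharZero F] [IsAlgClosed F] (p : ℕ) (w : F → ℝ), p.Prime → NA p w →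
  ∀ (A O : Set F) (κ : F → F), A.Finite → O.Infinite → (∀ x ∈ O, x ∉ A) → (∀ x ∈ O, κ x ∈ A) → (∀ γ ∈ O, FC w O γ (κ γ)) →
  ∃ (E : Set F) (κ₀ : F) (t : ℝ), E ⊆ O ∧ E.Infinite ∧ (∀ γ ∈ E, κ γ = κ₀) ∧ ∀ γ ∈ E, ∀ γ' ∈ E, γ ≠ γ' → w (γ - γ') = t

/-- Core lemma, divisibility form.  Notation: `U₁ = gp γ, U₂ = gp γ'`, `φ_a(ρ) = gv U₁ a ρ - gv U₂ a ρ` (`= vf γ - vf γ'`), `ρ₀ = w (β - c)`,
`s₁ = w (x-γ) - w (x-γ')`, `s₂ = w (y-γ) - w (y-γ')`.  Proof.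
(a) roots of `gp z`, `z ∈ O`, are in `O` (`S_OFIB`), so their differences have `IsZp` valuations.
(b) If `φ_a(ρ) = w (z-γ) - w (z-γ')` for `z ∈ {x, y}` and `φ_a` is not locally constant at `ρ`, then a root of `gp γ`, `gp γ'` or `gp z` has distance exactly `ρ` from `a`
(`S_CROSS` with `c₁ = (z-γ')/(γ-γ')`, `c₂ = (γ-z)/(γ-γ')`, `S_OFIB`).
(c) `φ_β(ρ) → ∞` (`ρ → ∞`): `β` is a root of `gp γ`, not of `gp γ'`.  `φ_c(ρ) = w(κ-γ) - w(κ-γ') ≤ s₂` for large `ρ` (`gp z (c) = qn(c)(κ - z) ≠ 0`).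
(d) at points `(β, ρ)`, `(c, ρ)`, `ρ ≥ ρ₀`, with `s₂ ≤ φ ≤ s₁` the slopes are divisible by `p^j` (`S_SMALL`).
Case I: `φ_β(ρ) ≤ s₂` for some `ρ ≥ ρ₀`.  Let `ρ₂` be the supremum of these; `φ_β(ρ₂) = s₂`, `φ_β > s₂` on `(ρ₂, ∞)`.  `ρ₁ := inf {ρ ≥ ρ₂ : φ_β(ρ) ≥ s₁}`;
`φ_β(ρ₁) = s₁`.  By (b) `ρ₁, ρ₂` are `IsZp`; `S_OL` with centre `β` on `[ρ₂, ρ₁]`.
Case II: `φ_β > s₂` on `[ρ₀, ∞)`.  `φ_c(ρ₀) = φ_β(ρ₀) > s₂`; `ρ₂ := inf {ρ ≥ ρ₀ : φ_c(ρ) ≤ s₂} > ρ₀`, `φ_c(ρ₂) = s₂`.  By (b) there is a root `b ∈ O` with `w (c - b) = ρ₂`;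
`φ_b = φ_c` and `DF b = DF c` on `(-∞, ρ₂]` (`S_GVB`).  (b) at centre `b`: a root `b'` with `w (b - b') = ρ₂`, so `ρ₂` is `IsZp`.  `w (β - b) = ρ₀`, so `ρ₀` is `IsZp`.
IIa: `φ_b(ρ) ≥ s₁` for some `ρ ∈ [ρ₀, ρ₂]`: `ρ₁` = supremum of these, `φ_b(ρ₁) = s₁`, `IsZp ρ₁` by (b); `S_OL` with centre `b` on `[ρ₁, ρ₂]`.
IIb: `φ_b < s₁` on `[ρ₀, ρ₂]`: `ρ₁ := inf {ρ ≥ ρ₀ : φ_β(ρ) ≥ s₁}`, `IsZp ρ₁`; `S_OL` with centre `β` on `[ρ₀, ρ₁]` and with centre `b` on `[ρ₀, ρ₂]`; subtract. -/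
def S_CORE1 : Prop := ∀ (F : Type) [Field F] [CharZero F] [IsAlgClosed F] (p : ℕ) (w : F → ℝ) (d : ℕ) (P Q : F[X]) (A O : Set F),
  LocD p w d P Q A O → ∀ γ ∈ O, ∀ κ ∈ A, ∀ γ' ∈ O, ∀ x ∈ O, ∀ y ∈ O, γ' ≠ γ → x ≠ γ → x ≠ γ' → y ≠ γ → y ≠ γ' →
  w (y - γ) - w (y - γ') < w (x - γ) - w (x - γ') → w (κ - γ) - w (κ - γ') ≤ w (y - γ) - w (y - γ') →
  ∀ (j : ℕ) (R V : ℝ) (n : ℕ) (β c : F), PathD w d P Q γ κ V n β c → -R ≤ w (β - c) →
  R + w (γ - γ') + |w (x - γ) - w (x - γ')| + |w (y - γ) - w (y - γ')| + j * w (p : F) ≤ V →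
  DivZp p j ((w (x - γ) - w (x - γ')) - (w (y - γ) - w (y - γ')))

/-- Core lemma.  Proof.  By `S_CORE1`, `S_REG` the number `D = s₁ - s₂ > 0` satisfies `DivZp p j D` for every `j`, and it is `IsZp`:
`m D = z` with `p ∤ m`; `m_j D = p^j z_j`; so `p^j ∣ m_j z`, `p^j ∣ z` for all `j`, `z = 0`, `D = 0`, contradiction. -/
def S_CORE : Prop := ∀ (F : Type) [Field F] [CharZero F] [IsAlgClosed F] (p : ℕ) (w : F → ℝ) (d : ℕ) (P Q : F[X]) (A O : Set F),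
  LocD p w d P Q A O → ∀ γ ∈ O, ∀ κ ∈ A, (∀ V : ℝ, ∃ n β c, PathD w d P Q γ κ V n β c) → FC w O γ κ

/-- The first disc on the path over the disc `(γ₁, t)`.  Proof.  `u_a(ρ) := vf n γ₁ a ρ`, `ρ₀ = w (β-c)`.  `u_β(ρ) → ∞` for `ρ → ∞` (`β` is a root of
`gp n γ₁`, not of `qn n`); `u_c(ρ) = w (κ - γ₁) ≤ t` for `ρ` large (`gp n γ₁ (c) = qn(c)(κ - γ₁) ≠ 0`).
Case B: `u_β(ρ) ≤ t` for some `ρ ≥ ρ₀`: let `ρ` be the supremum of these, `a = β`; `u_β(ρ) = t`, `u_β > t` on the right, so by local linearity (`S_GVB`)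
`cnt gp - cnt qn > 0` at `(β, ρ)`.  Case C: `u_β > t` on `[ρ₀, ∞)`: `u_c(ρ₀) = u_β(ρ₀) > t`; `a = c`, `ρ := inf {ρ ≥ ρ₀ : u_c(ρ) ≤ t} > ρ₀`, `u_c(ρ) = t` and `u_c > t` just on the left, so
`ccnt gp < ccnt qn` at `(c, ρ)`.  For `γ` with `w (γ - γ₁) = t`: `gp γ = gp γ₁ + C (γ₁ - γ) * qn` and `u > t` on one side of `ρ`, so `vf n γ a = t` on that side
(`S_UM`, `S_GVB`), hence at `ρ` by continuity. -/
def S_Z0 : Prop := ∀ (F : Type) [Field F] [CharZero F] [IsAlgClosed F] (p : ℕ) (w : F → ℝ) (d : ℕ) (P Q : F[X]) (A O : Set F),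
  LocD p w d P Q A O → ∀ γ₁ ∈ O, ∀ κ ∈ A, ∀ t : ℝ, w (γ₁ - κ) ≤ t → ∀ n β c V, PathD w d P Q γ₁ κ V n β c →
  ∃ a ρ, (a = β ∨ a = c) ∧ w (β - c) ≤ ρ ∧ vf w d P Q n γ₁ a ρ = t ∧
    (∀ γ, γ ≠ γ₁ → w (γ - γ₁) = t → vf w d P Q n γ a ρ = t) ∧
    (cnt w (qn d P Q n) a ρ < cnt w (gp d P Q n γ₁) a ρ ∨ ccnt w (gp d P Q n γ₁) a ρ < ccnt w (qn d P Q n) a ρ)

/-- Harmonicity.  Proof.  The relation `z ~ z' :⟺ z = z' ∨ ρ < w (z - z')` is an equivalence relation on the closed disc `D = (a, ρ)`; its classes are the open discs `(b, ρ)`, `b ∈ D`.  The finite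
set of the roots of `U * V` in `D` (and the point `b₀`) meets finitely many classes; choose representatives `b`.  Then `ccnt U a ρ = Σ_b cnt U b ρ`, `ccnt V a ρ = Σ_b cnt V b ρ`.  (Alternatively: strong induction on
the number of roots, removing the roots of one class.) -/
def S_HARM : Prop := ∀ (F : Type) [Field F] [CharZero F] [IsAlgClosed F] (p : ℕ) (w : F → ℝ), p.Prime → NA p w →
  ∀ (U V : F[X]) (a : F) (ρ : ℝ), (∀ b, (b = a ∨ ρ ≤ w (a - b)) → cnt w V b ρ ≤ cnt w U b ρ) →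
  ccnt w V a ρ ≤ ccnt w U a ρ ∧
  ∀ b₀, (b₀ = a ∨ ρ ≤ w (a - b₀)) → cnt w V b₀ ρ < cnt w U b₀ ρ → ccnt w V a ρ < ccnt w U a ρ

/-- Directions.  Proof.  Directions at the disc `(a, ρ)`: the outer one, with slope `σ_γ := -(ccnt (gp γ) a ρ - ccnt qn a ρ)`, and the open discs `(b, ρ)`, `b` in the closed disc
`(a, ρ)` (`b = a ∨ ρ ≤ w (a-b)`), with slope `τ_γ(b) := cnt (gp γ) b ρ - cnt qn b ρ`.  By local linearity (`S_GVB`; `gv U a ρ = gv U b ρ`)
`vf γ a (ρ-h) = t + σ_γ h`, `vf γ b (ρ+h) = t + τ_γ(b) h`.  Since `gp γ - gp γ' = C(γ'-γ) qn`, `w (γ-γ') = t`, `S_UM` shows that among `vf γ, vf γ', t` the minimum is attained at least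
twice at each disc.  So in each direction, for `γ ≠ γ'` in `E`: (*) among the slopes of `γ`, of `γ'` and `0` the minimum is attained twice: if the slope of one is `< 0` all slopes (over `E`)
are equal; if the slope of `γ` is `> 0`, the one of `γ'` is `0`.
Harmonicity (`S_HARM`): if for `γ` some direction has positive slope then some direction has negative slope (otherwise all `τ ≥ 0`, so `ccnt qn ≤ ccnt gp`, and `σ ≥ 0` gives equality, `σ = 0`, so the positive slope is inner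
and `S_HARM` gives `ccnt qn < ccnt gp`, contradiction), and the same with positive and negative exchanged.  By hypothesis some direction has positive slope for `γ₁` (the direction of `a` itself, or the outer one), so some direction `e` has negative slope
for `γ₁`, hence by (*) for every `γ ∈ E`; so for every `γ ∈ E` some direction `e_γ` has positive slope for `γ`; by (*) `e_γ ≠ e_γ'` for `γ ≠ γ'`; so for all `γ ∈ E` with at most one exception `γ₀`, `e_γ` is an open disc, positive slope means it contains a root of `gp γ`: take it as centre `b`.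
Second claim: `b, b'` are in the closed disc, so `b = b'` or `w (b-b') ≥ ρ`; if `b = b'` or `w (b-b') > ρ` both slopes in the same direction are positive, contradicting (*). -/
def S_DIR : Prop := ∀ (F : Type) [Field F] [CharZero F] [IsAlgClosed F] (p : ℕ) (w : F → ℝ) (d : ℕ) (P Q : F[X]) (A O : Set F),
  LocD p w d P Q A O → ∀ (n : ℕ) (a : F) (ρ t : ℝ) (E : Set F), E ⊆ O → E.Infinite →
  (∀ γ ∈ E, ∀ γ' ∈ E, γ ≠ γ' → w (γ - γ') = t) → (∀ γ ∈ E, vf w d P Q n γ a ρ = t) → ∀ γ₁ ∈ E,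
  (cnt w (qn d P Q n) a ρ < cnt w (gp d P Q n γ₁) a ρ ∨ ccnt w (gp d P Q n γ₁) a ρ < ccnt w (qn d P Q n) a ρ) →
  (∃ γ₀, ∀ γ ∈ E, γ ≠ γ₀ → ∃ b, Dir w d P Q n a ρ γ b) ∧
  (∀ γ ∈ E, ∀ γ' ∈ E, γ ≠ γ' → ∀ b b', Dir w d P Q n a ρ γ b → Dir w d P Q n a ρ γ' b' → b ≠ b' ∧ w (b - b') = ρ)

/-- Multiplicities in good directions.  Proof.  `m := cnt (gp γ) b ρ ≥ 1`, `cnt qn b ρ = 0` by hypothesis.  `S_SL` with `U = gp γ`, `V = qn n` at `(b, ρ + h)`, `h > 0` small (no breaks, same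
`cnt`, `S_GVB`), `wr (gp γ) qn = wr pn qn` (`S_OFIB`): `w m ≥ (ρ+h) + DF b (ρ+h) - vf γ b (ρ+h)`; let `h → 0`: `w m ≥ ρ + DF b ρ - vf γ b ρ = ρ + DF a ρ - t ≥ V - R - t > 0` (change of centre).  So `p ∣ m` (`S_NAB`),
`m ≥ 2`, and the roots of `gp γ` are simple (`S_FIB`, `γ ∉ A`), so there are two different roots in the open disc `(b, ρ)`. -/
def S_TWO : Prop := ∀ (F : Type) [Field F] [CharZero F] [IsAlgClosed F] (p : ℕ) (w : F → ℝ) (d : ℕ) (P Q : F[X]) (A O : Set F),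
  LocD p w d P Q A O → ∀ (n : ℕ) (a : F) (ρ t R V : ℝ), -R ≤ ρ → V ≤ DF w d P Q n a ρ → R + t < V → ∀ γ ∈ O,
  vf w d P Q n γ a ρ = t → ∀ b, Dir w d P Q n a ρ γ b → cnt w (qn d P Q n) b ρ = 0 →
  ∃ b₁ ∈ fib d P Q n γ, ∃ b₂ ∈ fib d P Q n γ, b₁ ≠ b₂ ∧ (b₁ = b ∨ ρ < w (b - b₁)) ∧ (b₂ = b ∨ ρ < w (b - b₂)) ∧ ρ < w (b₁ - b₂)

/-- The local theorem.  Proof.  By `S_PATH` choose `κ : F → F` with `κ γ ∈ A` and paths for all `V`, for `γ ∈ O`; by `S_CORE`, `FC w O γ (κ γ)` for all `γ ∈ O`.  By `S_COMB` get `E, κ₀, t`.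
At most one `γ ∈ E` has `w (γ - κ₀) > t` (two of them would have distance `> t`); choose `γ₁ ∈ E` with `w (γ₁ - κ₀) ≤ t`; `R` from `S_REG` for `(γ₁, κ₀)`; `V > R + t`; `n, β, c` from the path; `(a, ρ)` from `S_Z0`;
`V ≤ DF n a ρ`, `-R ≤ ρ`.  `S_DIR`: for all `γ ∈ E` except `γ₀` choose `b_γ` with `Dir γ b_γ`.  The open discs `(b_γ, ρ)` are pairwise disjoint (mutual distances `ρ`), so all but finitely many contain neither a root of
`qn n` nor an element of `A`.  Take three such `γ, γ', γ''`.  By `S_TWO` there are `b₁ ≠ b₂ ∈ fib n γ` in the open disc `(b_γ, ρ)`; all points of fibres are in `O` (`S_OFIB`).  Apply `FC` to `b₁` and `κ' := κ b₁ ∈ A`: the discs of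
`γ', γ''` are different directions and do not contain `κ'`, neither does the disc of `b₁`; take `x = b₂`, and `{γ', y}` := `{b_γ', b_γ''}`.  Values: `w (b₂ - b₁) - w (b₂ - b_γ') = w (b₂ - b₁) - ρ > 0`;
`w (b_γ'' - b₁) - w (b_γ'' - b_γ') = ρ - ρ = 0`; `w (κ' - b₁) - w (κ' - b_γ') = 0`: if `κ'` is in the closed disc `(a, ρ)` both are `ρ`, otherwise both are `w (κ' - a) < ρ`.  Contradiction. -/
def S_LOC : Prop := ∀ (F : Type) [Field F] [CharZero F] [IsAlgClosed F] (p : ℕ) (w : F → ℝ) (d : ℕ) (P Q : F[X]) (A O : Set F),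
  LocD p w d P Q A O → False

end Pool.Agent.H516.PCF
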