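import Pool.Agent.H516.PCF.Full1

namespace Pool.Agent.H516.PCF

open Polynomial NumberField

theorem full (hWDEG : S_WDEG) (hMAIN : S_MAIN) (hTAME : S_TAME) (hTOW : S_TOW) (hNORM : S_NORM) : S_FULL := by
  intro K _ _ d P Q hR α hpcf hne
  by_contra hcon
  push Not at hcon
  set Kb := AlgebraicClosure K with hKb
  set P' := P.map (algebraMap K Kb) with hP'
  set Q' := Q.map (algebraMap K Kb) with hQ'
  have hR' : IsRat d P' Q' := by
    refine ⟨hR.two_le, ?_, ?_⟩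
    · exact hR.cop.map (mapRingHom (algebraMap K Kb))
    · rw [hP', hQ', natDegree_map, natDegree_map]; exact hR.deg
  have hchar : CharZero Kb := charZero_of_injective_algebraMap (algebraMap K Kb).injective
  obtain ⟨P₁, Q₁, m, q, hN₁, hconj, hcrit, hE⟩ := hNORM Kb d P' Q' hR'
  have hW₁ : wr P₁ Q₁ ≠ 0 := (hWDEG Kb P₁ Q₁ hN₁.Q0 (by rw [hN₁.degP]; exact hN₁.degQ)).1
  set f := rmap d P' Q' with hf
  set g := rmap d P₁ Q₁ with hg
  have hconjn : ∀ (n : ℕ) z, m (f^[n] z) = g^[n] (m z) := by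
    intro n
    induction n with
    | zero => intro z; rfl
    | succ n ih => intro z; rw [Function.iterate_succ_apply, Function.iterate_succ_apply, ih, hconj]
  have horb : ∀ c : Kb, (wr P₁ Q₁).eval c = 0 → (Set.range fun n : ℕ => g^[n] (c : OnePoint Kb)).Finite := by
    intro c hc
    have h1 : IsCrit d P' Q' (m.symm (c : OnePoint Kb)) := by
      rw [hcrit, Equiv.apply_symm_apply]
      simpa [IsCrit] using hc
    have h2 := (hpcf _ h1).image m
    refine h2.subset ?_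
    rintro _ ⟨n, rfl⟩
    refine ⟨_, ⟨n, rfl⟩, ?_⟩
    simp only []
    rw [hconjn, Equiv.apply_symm_apply]
  obtain ⟨A₁, hA₁, hfix₁⟩ := exists_post hN₁ hW₁ horb
  set O₁ : Set Kb := {x | x ∉ A₁ ∧ ∃ n : ℕ, f^[n] (m.symm (x : OnePoint Kb)) = OnePoint.map (algebraMap K Kb) α} with hO₁
  have hO₁inf : O₁.Infinite := by
    intro hfin
    apply hne
    have h1 : (m '' {z | ∃ n : ℕ, f^[n] z = OnePoint.map (algebraMap K Kb) α}).Finite := by
      refine (((Set.finite_singleton OnePoint.infty).union (hA₁.fin.image ((↑) : Kb → OnePoint Kb))).union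
        (hfin.image ((↑) : Kb → OnePoint Kb))).subset ?_
      rintro _ ⟨z, ⟨n, hn⟩, rfl⟩
      by_cases hmz : m z = OnePoint.infty
      · exact Or.inl (Or.inl hmz)
      · obtain ⟨x, hx⟩ := OnePoint.ne_infty_iff_exists.mp hmz
        by_cases hxA : x ∈ A₁
        · exact Or.inl (Or.inr ⟨x, hxA, hx⟩)
        · exact Or.inr ⟨x, ⟨hxA, n, by rw [hx, Equiv.symm_apply_apply]; exact hn⟩, hx⟩
    exact Set.Finite.of_finite_image h1 m.injective.injOn
  have hO₁bwd : ∀ t ∈ O₁, ∀ x, Q₁.eval x ≠ 0 → P₁.eval x / Q₁.eval x = t → x ∈ O₁ := by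
    rintro t ⟨htA, n, hn⟩ x hQx hx
    refine ⟨fun hxA => htA (hx ▸ hA₁.fwd x hxA hQx), n + 1, ?_⟩
    have h1 : f (m.symm (x : OnePoint Kb)) = m.symm (t : OnePoint Kb) := by
      apply m.injective
      rw [hconj, Equiv.apply_symm_apply, Equiv.apply_symm_apply, ← hx]
      exact rmap_coe_ne hQx
    rw [Function.iterate_succ_apply, h1]
    exact hn
  obtain ⟨t₁, ht₁⟩ := hO₁inf.nonempty
  -- the number field
  have hSfin : ({q, t₁} ∪ A₁ : Set Kb).Finite := (Set.toFinite _).union hA₁.fin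
  set K₁ : IntermediateField K Kb := IntermediateField.adjoin K ({q, t₁} ∪ A₁) with hK₁
  have hsub : ({q, t₁} ∪ A₁ : Set Kb) ⊆ K₁ := IntermediateField.subset_adjoin K _
  haveI hfd : FiniteDimensional K K₁ := by
    haveI : Finite ({q, t₁} ∪ A₁ : Set Kb) := hSfin
    exact IntermediateField.finiteDimensional_adjoin (fun x _ => Algebra.IsIntegral.isIntegral x)
  haveI hnf : NumberField K₁ := by
    haveI : CharZero K₁ := charZero_of_injective_algebraMap (algebraMap K K₁).injective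
    haveI : FiniteDimensional ℚ K₁ := FiniteDimensional.trans ℚ K K₁
    exact ⟨⟩
  have hqK : q ∈ K₁ := hsub (by simp)
  have htK : t₁ ∈ K₁ := hsub (by simp)
  have hAK : ∀ x ∈ A₁, x ∈ K₁ := fun x hx => hsub (Or.inr hx)
  have hPc : ∀ i, P'.coeff i ∈ K₁.toSubfield := fun i => by
    rw [hP', coeff_map]; exact K₁.algebraMap_mem _
  have hQc : ∀ i, Q'.coeff i ∈ K₁.toSubfield := fun i => by
    rw [hQ', coeff_map]; exact K₁.algebraMap_mem _
  obtain ⟨hc₁, _, _⟩ := hE K₁.toSubfield hqK hPc hQc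
  have hlift : ∀ R : Kb[X], (∀ i, R.coeff i ∈ K₁.toSubfield) → ∃ R₂ : K₁[X], R₂.map (algebraMap K₁ Kb) = R := by
    intro R hR
    have : R ∈ Polynomial.lifts (algebraMap K₁ Kb) := by
      rw [Polynomial.lifts_iff_coeff_lifts]
      intro i
      exact ⟨⟨R.coeff i, hR i⟩, rfl⟩
    obtain ⟨R₂, h⟩ := (Polynomial.mem_lifts R).1 this
    exact ⟨R₂, h⟩
  obtain ⟨P₂, hP₂⟩ := hlift P₁ fun i => (hc₁ i).1
  obtain ⟨Q₂, hQ₂⟩ := hlift Q₁ fun i => (hc₁ i).2
  have hj : Function.Injective (algebraMap K₁ Kb) := (algebraMap K₁ Kb).injective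
  have hev : ∀ (R : K₁[X]) (x : K₁), (R.map (algebraMap K₁ Kb)).eval (algebraMap K₁ Kb x) = algebraMap K₁ Kb (R.eval x) :=
    fun R x => eval_map_apply _ _
  have hN₂ : Nrm d P₂ Q₂ := by
    refine ⟨hN₁.two_le, ?_, ?_, ?_, ?_⟩
    · rw [← hN₁.degP, ← hP₂, natDegree_map]
    · rw [← natDegree_map (algebraMap K₁ Kb) (p := Q₂), hQ₂]; exact hN₁.degQ
    · intro h
      apply hN₁.Q0
      rw [← hQ₂, h, Polynomial.map_zero]
    · rw [← Polynomial.isCoprime_map (algebraMap K₁ Kb), hP₂, hQ₂]; exact hN₁.cop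
  have hwr : (wr P₂ Q₂).map (algebraMap K₁ Kb) = wr P₁ Q₁ := by
    unfold wr
    rw [Polynomial.map_sub, Polynomial.map_mul, Polynomial.map_mul, ← derivative_map, ← derivative_map, hP₂, hQ₂]
  set A₂ : Set K₁ := (algebraMap K₁ Kb) ⁻¹' A₁ with hA₂def
  have hA₂ : Post P₂ Q₂ A₂ := by
    refine ⟨hA₁.fin.preimage hj.injOn, ?_, ?_, ?_⟩
    · intro x hx
      apply hA₁.crit
      rw [← hwr, hev, hx, map_zero]
    · intro x hx
      apply hA₁.pole
      rw [← hQ₂, hev, hx, map_zero]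
    · intro x hx hQx
      have h1 : Q₁.eval (algebraMap K₁ Kb x) ≠ 0 := by
        rw [← hQ₂, hev]
        exact fun h => hQx ((map_eq_zero _).1 h)
      have h2 := hA₁.fwd _ hx h1
      rw [← hQ₂, ← hP₂, hev, hev, ← map_div₀] at h2
      exact h2
  have hW₂ : wr P₂ Q₂ ≠ 0 := by
    intro h
    apply hW₁
    rw [← hwr, h, Polynomial.map_zero]
  have hmemA : ∀ x ∈ A₁, ∃ y : K₁, algebraMap K₁ Kb y = x := fun x hx => ⟨⟨x, hAK x hx⟩, rfl⟩
  have hWs : (wr P₂ Q₂).Splits := splits_of_roots (F := Kb) _ hW₂ (fun x hx => hmemA x (hA₁.crit x (by rw [← hwr]; exact hx)))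
  have hQs : Q₂.Splits := splits_of_roots (F := Kb) _ hN₂.Q0 (fun x hx => hmemA x (hA₁.pole x (by rw [← hQ₂]; exact hx)))
  have hHs : (P₂ - X * Q₂).Splits := by
    by_cases h0 : P₂ - X * Q₂ = 0
    · rw [h0]; exact Polynomial.Splits.zero
    · refine splits_of_roots (F := Kb) _ h0 (fun x hx => ?_)
      rw [Polynomial.map_sub, Polynomial.map_mul, Polynomial.map_X, hP₂, hQ₂] at hx
      simp only [eval_sub, eval_mul, eval_X, sub_eq_zero] at hx
      exact hmemA x (hfix₁ x hx x hx)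
  have hfix₂ : ∀ q : K₁, P₂.eval q = q * Q₂.eval q → q ∈ A₂ ∧
      ∀ x : Kb, (P₂.map (algebraMap K₁ Kb)).eval x = algebraMap K₁ Kb q * (Q₂.map (algebraMap K₁ Kb)).eval x →
        x ∈ algebraMap K₁ Kb '' A₂ := by
    intro q' hq'
    have h1 : P₁.eval (algebraMap K₁ Kb q') = algebraMap K₁ Kb q' * Q₁.eval (algebraMap K₁ Kb q') := by
      rw [← hP₂, ← hQ₂, hev, hev, ← map_mul, hq']
    refine ⟨hfix₁ _ h1 _ h1, fun x hx => ?_⟩
    rw [hP₂, hQ₂] at hx
    have h2 := hfix₁ _ h1 x hx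
    exact ⟨⟨x, hAK x h2⟩, h2, rfl⟩
  -- the tower
  have hmono : ∀ a b : ℕ, a ≤ b → tower K d P Q α a ≤ tower K d P Q α b := by
    intro a b hab
    induction hab with
    | refl => exact le_rfl
    | step _ ih => exact ih.trans (hTOW K d P Q hR α _).2.2
  have hlev : ∀ x ∈ O₁, ∃ n : ℕ, 1 ≤ n ∧ ∀ n' ≥ n, x ∈ K₁ ⊔ tower K d P Q α n' := by
    rintro x ⟨_, n, hn⟩
    refine ⟨n + 1, by omega, fun n' hn' => ?_⟩
    by_cases hz : m.symm (x : OnePoint Kb) = OnePoint.infty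
    · have h1 : m OnePoint.infty = (x : OnePoint Kb) := by rw [← hz, Equiv.apply_symm_apply]
      have h2 := (hE K₁.toSubfield hqK hPc hQc).2.2 x h1
      exact (le_sup_left : K₁ ≤ K₁ ⊔ tower K d P Q α n') h2
    · obtain ⟨y, hy⟩ := OnePoint.ne_infty_iff_exists.mp hz
      have hy1 : y ∈ tower K d P Q α n := by
        apply IntermediateField.subset_adjoin
        show f^[n] (y : OnePoint Kb) = _
        rw [hy]
        exact hn
      have hy2 : y ∈ K₁ ⊔ tower K d P Q α n' :=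
        (le_sup_right : tower K d P Q α n' ≤ K₁ ⊔ tower K d P Q α n') (hmono n n' (by omega) hy1)
      have hle : K₁ ≤ K₁ ⊔ tower K d P Q α n' := le_sup_left
      have h3 := (hE (K₁ ⊔ tower K d P Q α n').toSubfield (hle hqK) (fun i => hle (hPc i)) (fun i => hle (hQc i))).2.1
        y hy2 x (by rw [hy, Equiv.apply_symm_apply])
      exact h3
  have htame : ∀ n, 1 ≤ n → ∀ p : ℕ, p.Prime → ∀ w : Kb → ℝ, NA p w → (∀ x : K₁, x ≠ 0 → ∃ z : ℤ, w (algebraMap K₁ Kb x) = z) →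
      ∀ x ∈ K₁ ⊔ tower K d P Q α n, x ≠ 0 → IsZp p (w x) := by
    intro n hn p hp w hw hz x hx hx0
    obtain ⟨hfd', hgal, _⟩ := hTOW K d P Q hR α n
    exact hTAME K (tower K d P Q α n) (fun 𝔓 h𝔓 p' hp' hmem => hcon n hn 𝔓 h𝔓 p' hp' hmem) K₁ p w hp hw
      (fun x hx hx0 => hz ⟨x, hx⟩ (fun h => hx0 (congrArg Subtype.val h))) x hx hx0
  haveI : Algebra.IsAlgebraic K₁ Kb := Algebra.IsAlgebraic.tower_top (K := K) K₁
  refine hMAIN K₁ Kb d P₂ Q₂ A₂ hN₂ hA₂ hWs hQs hHs hfix₂ O₁ ⟨t₁, htK⟩ ht₁ hO₁inf (fun x hx h => h.1 hx) ?_ ?_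
  · intro t ht x
    rw [hP₂, hQ₂]
    exact hO₁bwd t ht x
  · intro p hp w hw hz x hx
    obtain ⟨n₁, hn₁, hx₁⟩ := hlev x hx
    refine ⟨fun y hy hxy => ?_, fun y hxy => ?_⟩
    · obtain ⟨n₂, hn₂, hy₂⟩ := hlev y hy
      exact htame (max n₁ n₂) (le_max_of_le_left hn₁) p hp w hw hz _
        (sub_mem (hx₁ _ (le_max_left _ _)) (hy₂ _ (le_max_right _ _))) (sub_ne_zero.mpr hxy)
    · exact htame n₁ hn₁ p hp w hw hz _
        (sub_mem (hx₁ _ le_rfl) ((le_sup_left : K₁ ≤ K₁ ⊔ tower K d P Q α n₁) y.2)) (sub_ne_zero.mpr hxy)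

end Pool.Agent.H516.PCF
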