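import Pool.Agent.H516.PCF.Main3
import Pool.Agent.H516.PCF.Full2
import Pool.Agent.H100.PCF.Harm
import Pool.Agent.H106.PCF.Um
import Pool.Agent.H127.PCF.Pt
import Pool.Agent.H154.PCF.Ofib
import Pool.Agent.H154.PCF.Orb
import Pool.Agent.H155.PCF.Two
import Pool.Agent.H161.PCF.Tow
import Pool.Agent.H177.PCF.Comb
import Pool.Agent.H187.PCF.Core1
import Pool.Agent.H196.PCF.Nab
import Pool.Agent.H196.PCF.Val
import Pool.Agent.H230.PCF.Mah
import Pool.Agent.H249.PCF.Small
import Pool.Agent.H261.PCF.Gen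
import Pool.Agent.H264.PCF.Nrep
import Pool.Agent.H271.PCF.Eval
import Pool.Agent.H331.PCF.Path
import Pool.Agent.H349.PCF.Conj
import Pool.Agent.H349.PCF.Deg
import Pool.Agent.H349.PCF.Semi
import Pool.Agent.H349.PCF.Wdeg
import Pool.Agent.H358.PCF.Gvb
import Pool.Agent.H358.PCF.Sl
import Pool.Agent.H407.PCF.Avg
import Pool.Agent.H415.PCF.Conjn
import Pool.Agent.H549.PCF.Cmp
import Pool.Agent.H553.PCF.Cross
import Pool.Agent.H596.PCF.Rf
import Pool.Agent.H597.PCF.Fib
import Pool.Agent.H597.PCF.Ol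
import Pool.Agent.H603.PCF.Cf
import Pool.Agent.H603.PCF.Reg
import Pool.Agent.H665.PCF.Tame
import Pool.Agent.H707.PCF.Loc
import Pool.Agent.H707.PCF.Norm
import Pool.Agent.H707.PCF.Pf
import Pool.Agent.H726.PCF.Core
import Pool.Agent.H746.PCF.Dir
import Pool.Agent.H746.PCF.Glob
import Pool.Agent.H747.PCF.Z0
import Pool.Agent.H784.PCF.Arch
import Pool.Agent.H784.PCF.Area
import Pool.Agent.H803.PCF.Grp
import Pool.Agent.H803.PCF.Uq
import Pool.Agent.H809.PCF.Mult
import Pool.Agent.H935.PCF.Map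
import Pool.Agent.H94.PCF.Esc

/-! Assembly of the theorem on postcritically finite towers. -/

namespace Pool.Agent.H516.PCF

theorem evalP : S_EVAL := Pool.Agent.H271.PCF.eval
theorem degP : S_DEG := Pool.Agent.H349.PCF.deg
theorem wdegP : S_WDEG := Pool.Agent.H349.PCF.wdeg
theorem semiP : S_SEMI := Pool.Agent.H349.PCF.semi degP
theorem orbP : S_ORB := Pool.Agent.H154.PCF.orb evalP
theorem fibP : S_FIB := Pool.Agent.H597.PCF.fib degP orbP
theorem cfP : S_CF := Pool.Agent.H603.PCF.cf degP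
theorem rfP : S_RF := Pool.Agent.H596.PCF.rf evalP fibP semiP cfP wdegP
theorem grpP : S_GRP := Pool.Agent.H803.PCF.grp evalP orbP wdegP
theorem cmpP : S_CMP := Pool.Agent.H549.PCF.cmp evalP orbP wdegP
theorem mapP : S_MAP := fun k _ _ L _ σ d P Q h hw hQ => Pool.Agent.H935.PCF.map k L σ d P Q h hw hQ
theorem areaP : S_AREA := Pool.Agent.H784.PCF.area
theorem mahP : S_MAH := Pool.Agent.H230.PCF.mah degP
theorem archP : S_ARCH := Pool.Agent.H784.PCF.arch areaP mahP fibP rfP cmpP
theorem pfP : S_PF := Pool.Agent.H707.PCF.pf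
theorem globP : S_GLOB := Pool.Agent.H746.PCF.glob grpP archP mapP pfP
theorem nabP : S_NAB := Pool.Agent.H196.PCF.nab
theorem gvbP : S_GVB := Pool.Agent.H358.PCF.G.gvb nabP
theorem genP : S_GEN := Pool.Agent.H261.PCF.gen nabP
theorem umP : S_UM := Pool.Agent.H106.PCF.um nabP gvbP genP
theorem avgP : S_AVG := Pool.Agent.H407.PCF.avg
theorem slP : S_SL := Pool.Agent.H358.PCF.sl nabP gvbP genP avgP
theorem ptP : S_PT := Pool.Agent.H127.PCF.pt nabP gvbP
theorem escP : S_ESC := Pool.Agent.H94.PCF.esc nabP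
theorem multP : S_MULT := Pool.Agent.H809.PCF.mult
theorem pathP : S_PATH := Pool.Agent.H331.PCF.path nabP gvbP ptP wdegP degP multP orbP fibP
theorem regP : S_REG := Pool.Agent.H603.PCF.reg nabP evalP escP fibP
theorem ofibP : S_OFIB := Pool.Agent.H154.PCF.ofib evalP degP fibP wdegP
theorem smallP : S_SMALL := Pool.Agent.H249.PCF.small nabP gvbP umP slP ofibP
theorem olP : S_OL := Pool.Agent.H597.PCF.ol
theorem crossP : S_CROSS := Pool.Agent.H553.PCF.cross gvbP umP
theorem core1P : S_CORE1 := Pool.Agent.H187.PCF.core1 nabP gvbP crossP olP smallP ofibP fibP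
theorem coreP : S_CORE := Pool.Agent.H726.PCF.core core1P regP
theorem combP : S_COMB := Pool.Agent.H177.PCF.comb nabP
theorem z0P : S_Z0 := Pool.Agent.H747.PCF.z0 nabP gvbP umP ofibP fibP
theorem harmP : S_HARM := Pool.Agent.H100.PCF.harm nabP
theorem dirP : S_DIR := Pool.Agent.H746.PCF.dir nabP gvbP umP harmP ofibP
theorem twoP : S_TWO := Pool.Agent.H155.PCF.two nabP gvbP slP ofibP fibP
theorem locP : S_LOC := Pool.Agent.H707.PCF.loc pathP coreP combP regP z0P dirP twoP ofibP fibP nabP gvbP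
theorem nrepP : S_NREP := Pool.Agent.H264.PCF.nrep nabP
theorem conjP : S_CONJ := Pool.Agent.H349.PCF.conj
theorem conjnP : S_CONJN := Pool.Agent.H415.PCF.conjn evalP conjP
theorem uqP : S_UQ := Pool.Agent.H803.PCF.uq nabP degP evalP
theorem valP : S_VAL := Pool.Agent.H196.PCF.val
theorem tameP : S_TAME := Pool.Agent.H665.PCF.tame
theorem towP : S_TOW := Pool.Agent.H161.PCF.tow
theorem normP : S_NORM := Pool.Agent.H707.PCF.norm conjP wdegP
theorem mainP : S_MAIN := main nabP grpP cmpP mapP rfP fibP conjP conjnP uqP nrepP globP valP locP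
theorem fullP : S_FULL := full wdegP mainP tameP towP normP

end Pool.Agent.H516.PCF
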