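import Mathlib

/-! Definitions for the theorem on postcritically finite towers (MP_392fd3_nt). -/

namespace Pool.Agent.H516.PCF

open Polynomial

section basic
variable {k : Type} [Field k]

/-- the homogenisation of degree `d` of `R`, evaluated at the pair `(A, B)` -/
noncomputable def hom (d : ℕ) (R A B : k[X]) : k[X] :=
  ∑ i ∈ Finset.range (d + 1), C (R.coeff i) * A ^ i * B ^ (d - i)

/-- numerator and denominator of the `n`-th iterate of `P / Q` -/
noncomputable def it (d : ℕ) (P Q : k[X]) : ℕ → k[X] × k[X]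
  | 0 => (X, 1)
  | n + 1 => (hom d P (it d P Q n).1 (it d P Q n).2, hom d Q (it d P Q n).1 (it d P Q n).2)

noncomputable def pn (d : ℕ) (P Q : k[X]) (n : ℕ) : k[X] := (it d P Q n).1
noncomputable def qn (d : ℕ) (P Q : k[X]) (n : ℕ) : k[X] := (it d P Q n).2

/-- Wronskian -/
noncomputable def wr (P Q : k[X]) : k[X] := derivative P * Q - P * derivative Q

/-- the `n`-th iterate (at points where it is finite) -/
noncomputable def fn (d : ℕ) (P Q : k[X]) (n : ℕ) (x : k) : k :=
  (pn d P Q n).eval x / (qn d P Q n).eval x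

/-- the derivative of the `n`-th iterate -/
noncomputable def dn (d : ℕ) (P Q : k[X]) (n : ℕ) (x : k) : k :=
  (wr (pn d P Q n) (qn d P Q n)).eval x / (qn d P Q n).eval x ^ 2

/-- the polynomial of the fibre of the `n`-th iterate over `t` -/
noncomputable def gp (d : ℕ) (P Q : k[X]) (n : ℕ) (t : k) : k[X] := pn d P Q n - C t * qn d P Q n

/-- the fibre of the `n`-th iterate over `t`, with multiplicities -/
noncomputable def fib (d : ℕ) (P Q : k[X]) (n : ℕ) (t : k) : Multiset k := (gp d P Q n t).roots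

def geom (d n : ℕ) : ℕ := ∑ i ∈ Finset.range n, d ^ i

/-- normalised rational functions of degree `d` : infinity is a fixed point -/
structure Nrm (d : ℕ) (P Q : k[X]) : Prop where
  two_le : 2 ≤ d
  degP : P.natDegree = d
  degQ : Q.natDegree < d
  Q0 : Q ≠ 0
  cop : IsCoprime P Q

/-- `A` is finite, forward invariant, and contains the finite critical points and the finite poles -/
structure Post (P Q : k[X]) (A : Set k) : Prop where
  fin : A.Finite
  crit : ∀ x, (wr P Q).eval x = 0 → x ∈ A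
  pole : ∀ x, Q.eval x = 0 → x ∈ A
  fwd : ∀ x ∈ A, Q.eval x ≠ 0 → P.eval x / Q.eval x ∈ A

/-- the product of `R` over the fibre `f^{-i}(t)`, in terms of the roots of `R` -/
noncomputable def cf (d : ℕ) (P Q : k[X]) (i : ℕ) (t : k) (R : k[X]) : k :=
  R.leadingCoeff ^ (d ^ i) *
    (R.roots.map fun c => (-1) ^ (d ^ i) * (gp d P Q i t).eval c / P.leadingCoeff ^ geom d i).prod

/-- the product of the derivative of the `n`-th iterate over the fibre `f^{-n}(t)` -/
noncomputable def en (d : ℕ) (P Q : k[X]) (n : ℕ) (t : k) : k :=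
  ∏ i ∈ Finset.range n, (cf d P Q (i + 1) t (wr P Q) / cf d P Q (i + 1) t Q ^ 2) ^ d ^ (n - 1 - i)

/-- general rational function of degree `d` -/
structure IsRat (d : ℕ) (P Q : k[X]) : Prop where
  two_le : 2 ≤ d
  cop : IsCoprime P Q
  deg : max P.natDegree Q.natDegree = d

/-- the self-map of the projective line `OnePoint k` defined by `P / Q` -/
noncomputable def rmap (d : ℕ) (P Q : k[X]) : OnePoint k → OnePoint k :=
  open Classical in
  fun z => OnePoint.elim z
    (if Q.coeff d = 0 then OnePoint.infty else ((P.coeff d / Q.coeff d : k) : OnePoint k))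
    (fun x => if Q.eval x = 0 then OnePoint.infty else ((P.eval x / Q.eval x : k) : OnePoint k))

/-- critical points of `P / Q` on the projective line -/
noncomputable def IsCrit (d : ℕ) (P Q : k[X]) : OnePoint k → Prop :=
  fun z => OnePoint.elim z ((wr P Q).coeff (2 * d - 2) = 0) (fun x => (wr P Q).eval x = 0)

/-- `y^d R(q + 1/y)` -/
noncomputable def ct (d : ℕ) (q : k) (R : k[X]) : k[X] := reflect d (taylor q R)

/-- numerator and denominator of `P / Q` in the coordinate `y = 1 / (x - q)` -/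
noncomputable def Pt (d : ℕ) (_P Q : k[X]) (q : k) : k[X] := ct d q Q
noncomputable def Qt (d : ℕ) (P Q : k[X]) (q : k) : k[X] := ct d q P - C q * ct d q Q

end basic

section local_
variable {F : Type} [Field F]

/-- `w` is (the restriction to the nonzero elements of) a real valuation with `w p > 0`;
the value `w 0` is irrelevant -/
structure NA (p : ℕ) (w : F → ℝ) : Prop where
  mul : ∀ x y, x ≠ 0 → y ≠ 0 → w (x * y) = w x + w y
  add : ∀ x y, x ≠ 0 → y ≠ 0 → x + y ≠ 0 → min (w x) (w y) ≤ w (x + y)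
  pos : 0 < w p

open Classical in
/-- `min (w (a - t)) ρ`, with value `ρ` for `t = a` -/
noncomputable def mn (w : F → ℝ) (a t : F) (ρ : ℝ) : ℝ := if a = t then ρ else min (w (a - t)) ρ

/-- the Gauss valuation of the polynomial `U` on the disc `{x : w (x - a) ≥ ρ}` -/
noncomputable def gv (w : F → ℝ) (U : F[X]) (a : F) (ρ : ℝ) : ℝ :=
  w U.leadingCoeff + (U.roots.map fun z => mn w a z ρ).sum

open Classical in
/-- number of roots of `U` (with multiplicity) in the open disc `{x : w (x - a) > ρ}` -/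
noncomputable def cnt (w : F → ℝ) (U : F[X]) (a : F) (ρ : ℝ) : ℕ :=
  (U.roots.filter fun z => z = a ∨ ρ < w (a - z)).card

open Classical in
/-- number of roots of `U` (with multiplicity) in the closed disc `{x : w (x - a) ≥ ρ}` -/
noncomputable def ccnt (w : F → ℝ) (U : F[X]) (a : F) (ρ : ℝ) : ℕ :=
  (U.roots.filter fun z => z = a ∨ ρ ≤ w (a - z)).card

/-- some root of `U` is at distance exactly `ρ` from `a` -/
def brk (w : F → ℝ) (U : F[X]) (a : F) (ρ : ℝ) : Prop := ∃ z ∈ U.roots, z ≠ a ∧ w (a - z) = ρ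

def IsZp (p : ℕ) (x : ℝ) : Prop := ∃ m : ℕ, ¬ p ∣ m ∧ ∃ z : ℤ, (m : ℝ) * x = z
def DivZp (p j : ℕ) (x : ℝ) : Prop := ∃ m : ℕ, ¬ p ∣ m ∧ ∃ z : ℤ, (m : ℝ) * x = (p : ℝ) ^ j * z

/-- Gauss valuation of the derivative of the `n`-th iterate -/
noncomputable def DF (w : F → ℝ) (d : ℕ) (P Q : F[X]) (n : ℕ) (a : F) (ρ : ℝ) : ℝ :=
  gv w (wr (pn d P Q n) (qn d P Q n)) a ρ - 2 * gv w (qn d P Q n) a ρ

/-- Gauss valuation of `f^n - t` -/
noncomputable def vf (w : F → ℝ) (d : ℕ) (P Q : F[X]) (n : ℕ) (t : F) (a : F) (ρ : ℝ) : ℝ :=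
  gv w (gp d P Q n t) a ρ - gv w (qn d P Q n) a ρ

/-- the data of the local theorem -/
structure LocD (p : ℕ) (w : F → ℝ) (d : ℕ) (P Q : F[X]) (A O : Set F) : Prop where
  prime : p.Prime
  na : NA p w
  nrm : Nrm d P Q
  post : Post P Q A
  nonrep : Q.coeff (d - 1) = 0 ∨ w P.leadingCoeff ≤ w (Q.coeff (d - 1))
  disj : ∀ x ∈ O, x ∉ A
  bwd : ∀ t ∈ O, ∀ x, Q.eval x ≠ 0 → P.eval x / Q.eval x = t → x ∈ O
  zp : ∀ x ∈ O, ∀ y ∈ O, x ≠ y → IsZp p (w (x - y))
  unb : ∀ γ ∈ O, ∀ V : ℝ, ∃ n, ∃ β ∈ fib d P Q n γ, V ≤ w (dn d P Q n β)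
  inf : O.Infinite

/-- a path in the tree of discs from a point over `γ` to a point over `κ` along which the
derivative is at least `V` -/
def PathD (w : F → ℝ) (d : ℕ) (P Q : F[X]) (γ κ : F) (V : ℝ) (n : ℕ) (β c : F) : Prop :=
  β ∈ fib d P Q n γ ∧ (qn d P Q n).eval c ≠ 0 ∧ fn d P Q n c = κ ∧ β ≠ c ∧
    ∀ ρ, w (β - c) ≤ ρ → V ≤ DF w d P Q n β ρ ∧ V ≤ DF w d P Q n c ρ

/-- the forbidden configuration does not occur -/
def FC (w : F → ℝ) (O : Set F) (γ κ : F) : Prop :=
  ∀ γ' ∈ O, ∀ x ∈ O, ∀ y ∈ O, γ' ≠ γ → x ≠ γ → x ≠ γ' → y ≠ γ → y ≠ γ' →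
    ¬ (w (y - γ) - w (y - γ') < w (x - γ) - w (x - γ') ∧
       w (κ - γ) - w (κ - γ') ≤ w (y - γ) - w (y - γ'))

/-- `b` is a root of `f^n = t` in the closed disc `(a, ρ)` in whose direction `f^n - t` increases -/
def Dir (w : F → ℝ) (d : ℕ) (P Q : F[X]) (n : ℕ) (a : F) (ρ : ℝ) (t b : F) : Prop :=
  b ∈ fib d P Q n t ∧ (b = a ∨ ρ ≤ w (a - b)) ∧
    cnt w (qn d P Q n) b ρ < cnt w (gp d P Q n t) b ρ

end local_

end Pool.Agent.H516.PCF
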