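import Pool.Agent.H516.PCF.All
import Pool.Agent.H516.PCF.StmF

namespace Pool.Agent.H516.PCF

open Polynomial NumberField

section
variable {k : Type} [Field k]

lemma rmap_coe_ne {d : ℕ} {P Q : k[X]} {x : k} (h : Q.eval x ≠ 0) :
    rmap d P Q (x : OnePoint k) = ((P.eval x / Q.eval x : k) : OnePoint k) := by
  simp [rmap, h]

lemma rmap_coe_eq {d : ℕ} {P Q : k[X]} {x : k} (h : Q.eval x = 0) :
    rmap d P Q (x : OnePoint k) = OnePoint.infty := by
  simp [rmap, h]

lemma rmap_infty {d : ℕ} {P Q : k[X]} (h : Q.coeff d = 0) :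
    rmap d P Q OnePoint.infty = OnePoint.infty := by
  simp [rmap, h]

lemma nrm_no_common {d : ℕ} {P Q : k[X]} (hN : Nrm d P Q) {x : k} (h1 : P.eval x = 0) (h2 : Q.eval x = 0) : False := by
  obtain ⟨u, v, huv⟩ := hN.cop
  have := congrArg (eval x) huv
  simp [h1, h2] at this

lemma range_iterate_finite {X : Type} (g : X → X) (z : X) (y : X) (h1 : g z = y) (h2 : g y = y) :
    (Set.range fun n : ℕ => g^[n] z).Finite := by
  have hy : ∀ n : ℕ, g^[n] y = y := by
    intro n
    induction n with
    | zero => rfl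
    | succ n ih => rw [Function.iterate_succ_apply, h2, ih]
  refine (Set.toFinite {z, y}).subset ?_
  rintro _ ⟨n, rfl⟩
  cases n with
  | zero => left; rfl
  | succ n =>
    right
    simp only [Function.iterate_succ_apply, h1, hy]
    rfl

/-- the finite forward invariant set -/
lemma exists_post {d : ℕ} {P Q : k[X]} (hN : Nrm d P Q) (hW : wr P Q ≠ 0)
    (horb : ∀ c : k, (wr P Q).eval c = 0 → (Set.range fun n : ℕ => (rmap d P Q)^[n] (c : OnePoint k)).Finite) :
    ∃ A : Set k, Post P Q A ∧ ∀ q, P.eval q = q * Q.eval q → ∀ c, P.eval c = q * Q.eval c → c ∈ A := by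
  classical
  have hQd : Q.coeff d = 0 := coeff_eq_zero_of_natDegree_lt hN.degQ
  set g := rmap d P Q with hg
  set S : Set k := {c | (wr P Q).eval c = 0} ∪ ({c | Q.eval c = 0} ∪ {c | ∃ q, P.eval q = q * Q.eval q ∧ P.eval c = q * Q.eval c}) with hS
  have hPXQ : P - X * Q ≠ 0 := by
    intro h
    have h1 : P = X * Q := sub_eq_zero.mp h
    have h2 : IsUnit Q := by
      have := hN.cop
      rw [h1] at this
      exact this.isUnit_of_dvd' (Dvd.intro_left X rfl) dvd_rfl
    have h3 : P.natDegree = 1 := by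
      rw [h1, natDegree_X_mul hN.Q0, natDegree_eq_zero_of_isUnit h2]
    have := hN.degP
    have := hN.two_le
    omega
  have hPcQ : ∀ q, P - C q * Q ≠ 0 := by
    intro q h
    have h1 : P = C q * Q := sub_eq_zero.mp h
    have h2 : P.natDegree ≤ Q.natDegree := by
      rw [h1]; exact natDegree_C_mul_le q Q
    have := hN.degP
    have := hN.degQ
    omega
  have hSf : S.Finite := by
    refine Set.Finite.union ?_ (Set.Finite.union ?_ ?_)
    · exact (wr P Q).roots.toFinset.finite_toSet.subset (fun c hc => by simpa [hW] using hc)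
    · exact Q.roots.toFinset.finite_toSet.subset (fun c hc => by simpa [hN.Q0] using hc)
    · have h1 : {q | P.eval q = q * Q.eval q}.Finite :=
        (P - X * Q).roots.toFinset.finite_toSet.subset (fun c hc => by
          simp only [Finset.mem_coe, Multiset.mem_toFinset, mem_roots hPXQ, IsRoot, eval_sub, eval_mul, eval_X]
          rw [sub_eq_zero]; exact hc)
      have h2 : {c | ∃ q, P.eval q = q * Q.eval q ∧ P.eval c = q * Q.eval c} =
          ⋃ q ∈ {q | P.eval q = q * Q.eval q}, {c | P.eval c = q * Q.eval c} := by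
        ext c; simp
      rw [h2]
      refine h1.biUnion fun q _ => ?_
      exact (P - C q * Q).roots.toFinset.finite_toSet.subset (fun c hc => by
          simp only [Finset.mem_coe, Multiset.mem_toFinset, mem_roots (hPcQ q), IsRoot, eval_sub, eval_mul, eval_C]
          rw [sub_eq_zero]; exact hc)
  have horbS : ∀ c ∈ S, (Set.range fun n : ℕ => g^[n] (c : OnePoint k)).Finite := by
    rintro c (hc | hc | ⟨q, hq, hc⟩)
    · exact horb c hc
    · exact range_iterate_finite g _ OnePoint.infty (rmap_coe_eq hc) (rmap_infty hQd)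
    · have hQc : Q.eval c ≠ 0 := by
        intro h
        rw [h, mul_zero] at hc
        exact nrm_no_common hN hc h
      have hQq : Q.eval q ≠ 0 := by
        intro h
        rw [h, mul_zero] at hq
        exact nrm_no_common hN hq h
      refine range_iterate_finite g _ (q : OnePoint k) ?_ ?_
      · rw [hg, rmap_coe_ne hQc, hc, mul_div_cancel_right₀ _ hQc]
      · rw [hg, rmap_coe_ne hQq, hq, mul_div_cancel_right₀ _ hQq]
  refine ⟨{x | ∃ c ∈ S, ∃ n : ℕ, g^[n] (c : OnePoint k) = (x : OnePoint k)}, ⟨?_, ?_, ?_, ?_⟩, ?_⟩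
  · have h1 : (⋃ c ∈ S, Set.range fun n : ℕ => g^[n] (c : OnePoint k)).Finite := hSf.biUnion horbS
    refine (h1.preimage (OnePoint.coe_injective.injOn)).subset ?_
    rintro x ⟨c, hc, n, hn⟩
    simp only [Set.mem_preimage, Set.mem_iUnion, Set.mem_range]
    exact ⟨c, hc, n, hn⟩
  · exact fun c hc => ⟨c, Or.inl hc, 0, rfl⟩
  · exact fun c hc => ⟨c, Or.inr (Or.inl hc), 0, rfl⟩
  · rintro x ⟨c, hc, n, hn⟩ hQx
    refine ⟨c, hc, n + 1, ?_⟩
    rw [Function.iterate_succ_apply', hn, hg, rmap_coe_ne hQx]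
  · exact fun q hq c hc => ⟨c, Or.inr (Or.inr ⟨q, hq, hc⟩), 0, rfl⟩

end

lemma splits_of_roots {K F : Type} [Field K] [Field F] [Algebra K F] [IsAlgClosed F] (R : K[X]) (hR : R ≠ 0)
    (h : ∀ x : F, (R.map (algebraMap K F)).eval x = 0 → ∃ y : K, algebraMap K F y = x) : R.Splits := by
  have h1 : (R.map (algebraMap K F)).Splits := IsAlgClosed.splits _
  refine Polynomial.Splits.of_splits_map (algebraMap K F) h1 ?_
  intro a ha
  exact h a ((mem_roots (Polynomial.map_ne_zero hR)).1 ha)

end Pool.Agent.H516.PCF
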