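import Pool.Agent.H516.PCF.All

namespace Pool.Agent.H516.PCF

open Polynomial

section
variable {F : Type} [Field F]

lemma w_prod {p : ℕ} {w : F → ℝ} (hw : NA p w) (h1 : w 1 = 0) (s : Multiset F) (hs : ∀ x ∈ s, x ≠ 0) :
    s.prod ≠ 0 ∧ w s.prod = (s.map w).sum := by
  induction s using Multiset.induction_on with
  | empty => simp [h1]
  | cons a s ih =>
    have ha : a ≠ 0 := hs a (by simp)
    obtain ⟨h2, h3⟩ := ih (fun x hx => hs x (by simp [hx]))
    rw [Multiset.prod_cons, Multiset.map_cons, Multiset.sum_cons]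
    exact ⟨mul_ne_zero ha h2, by rw [hw.mul _ _ ha h2, h3]⟩

lemma exists_ge_of_sum {ι : Type} (s : Multiset ι) (f : ι → ℝ) (C : ℝ) (hs : s.card ≠ 0)
    (h : C * s.card ≤ (s.map f).sum) : ∃ x ∈ s, C ≤ f x := by
  by_contra hc
  push Not at hc
  have hlt : ∀ s : Multiset ι, s.card ≠ 0 → (∀ x ∈ s, f x < C) → (s.map f).sum < C * s.card := by
    intro s
    induction s using Multiset.induction_on with
    | empty => simp
    | cons a s ih =>
      intro _ hx
      rw [Multiset.map_cons, Multiset.sum_cons, Multiset.card_cons]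
      have ha := hx a (by simp)
      by_cases h0 : s.card = 0
      · have : s = 0 := Multiset.card_eq_zero.mp h0
        subst this
        simpa using ha
      · have := ih h0 (fun x hx' => hx x (by simp [hx']))
        push_cast
        nlinarith
  exact absurd h (not_le.mpr (hlt s hs hc))

/-- the absolute value attached to `w` -/
noncomputable def nu {p : ℕ} {w : F → ℝ} (hw : NA p w) (h1 : w 1 = 0) : F →*₀ ℝ :=
  open Classical in
  { toFun := fun x => if x = 0 then 0 else Real.exp (-w x)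
    map_zero' := by simp
    map_one' := by simp [h1]
    map_mul' := by
      intro x y
      by_cases hx : x = 0
      · simp [hx]
      by_cases hy : y = 0
      · simp [hy]
      simp only [hx, hy, mul_eq_zero, or_self, if_false]
      rw [hw.mul x y hx hy, ← Real.exp_add]
      congr 1
      ring }

lemma nu_apply {p : ℕ} {w : F → ℝ} (hw : NA p w) (h1 : w 1 = 0) (x : F) (hx : x ≠ 0) :
    nu hw h1 x = Real.exp (-w x) := by
  simp [nu, hx]

lemma nu_nonneg {p : ℕ} {w : F → ℝ} (hw : NA p w) (h1 : w 1 = 0) (x : F) : 0 ≤ nu hw h1 x := by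
  by_cases hx : x = 0
  · simp [hx]
  · rw [nu_apply hw h1 x hx]; positivity

lemma en_ne_zero (hGRP : S_GRP) [CharZero F] {d : ℕ} {P Q : F[X]} {A : Set F} (hN : Nrm d P Q) (hA : Post P Q A)
    {t : F} (ht : t ∉ A) (n : ℕ) : en d P Q n t ≠ 0 := by
  obtain ⟨Θ, h⟩ := hGRP F d P Q A hN hA t ht
  obtain ⟨u, _, hu⟩ := h n
  rw [← hu]
  exact u.ne_zero

/-- unboundedness does not depend on the base point -/
lemma unb_transfer (hNAB : S_NAB) (hGRP : S_GRP) (hCMP : S_CMP) [CharZero F] [IsAlgClosed F] {p : ℕ} (hp : p.Prime)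
    {w : F → ℝ} (hw : NA p w) {d : ℕ} {P Q : F[X]} {A : Set F} (hN : Nrm d P Q) (hA : Post P Q A)
    {t γ : F} (ht : t ∉ A) (hγ : γ ∉ A) (h : ∀ C : ℝ, ∃ n : ℕ, C * (d : ℝ) ^ n ≤ w (en d P Q n t)) :
    ∀ C : ℝ, ∃ n : ℕ, C * (d : ℝ) ^ n ≤ w (en d P Q n γ) := by
  have h1 := (hNAB F p w hp hw).1
  -- the constant B
  obtain ⟨B, hB1, hB⟩ : ∃ B : ℝ, 1 ≤ B ∧ ∀ x ∈ A, nu hw h1 (x - γ) ≤ B * nu hw h1 (x - t) := by
    have hfin := hA.fin
    obtain ⟨M, hM⟩ := (hfin.image fun x => nu hw h1 (x - γ) / nu hw h1 (x - t)).bddAbove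
    refine ⟨max 1 M, le_max_left _ _, fun x hx => ?_⟩
    have hxt : x - t ≠ 0 := sub_ne_zero.mpr (fun h => ht (h ▸ hx))
    have hpos : 0 < nu hw h1 (x - t) := by rw [nu_apply hw h1 _ hxt]; positivity
    have := hM ⟨x, hx, rfl⟩
    rw [← div_le_iff₀ hpos]
    exact this.trans (le_max_right _ _)
  intro C
  obtain ⟨n, hn⟩ := h (C + 2 * Real.log B)
  refine ⟨n, ?_⟩
  have h2 := hCMP F d P Q A hN hA (nu hw h1) (nu_nonneg hw h1) B hB1 γ t hB n
  rw [nu_apply hw h1 _ (en_ne_zero hGRP hN hA hγ n), nu_apply hw h1 _ (en_ne_zero hGRP hN hA ht n)] at h2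
  have hBpos : 0 < B := by linarith
  have h3 : B ^ (2 * d ^ n) = Real.exp (2 * (d : ℝ) ^ n * Real.log B) := by
    rw [← Real.exp_log (pow_pos hBpos _), Real.log_pow]
    push_cast
    ring_nf
  rw [h3, ← Real.exp_add, Real.exp_le_exp] at h2
  nlinarith

/-- an element of the fibre with large derivative -/
lemma exists_big (hNAB : S_NAB) (hRF : S_RF) (hFIB : S_FIB) [CharZero F] [IsAlgClosed F] {p : ℕ} (hp : p.Prime)
    {w : F → ℝ} (hw : NA p w) {d : ℕ} {P Q : F[X]} {A : Set F} (hN : Nrm d P Q) (hA : Post P Q A)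
    {γ : F} (hγ : γ ∉ A) (n : ℕ) :
    (∀ β ∈ fib d P Q n γ, dn d P Q n β ≠ 0) ∧
    ((fib d P Q n γ).map fun β => w (dn d P Q n β)).sum = w (en d P Q n γ) := by
  have h1 := (hNAB F p w hp hw).1
  obtain ⟨hc, hm, hA'⟩ := hFIB F d P Q hN n γ
  obtain ⟨hnd, hx⟩ := hA' A hA hγ
  have h0 : ∀ β ∈ fib d P Q n γ, dn d P Q n β ≠ 0 := by
    intro β hβ
    unfold dn
    exact div_ne_zero (hx β hβ).2 (pow_ne_zero 2 ((hm β).1 hβ).1)
  refine ⟨h0, ?_⟩
  have := (w_prod hw h1 ((fib d P Q n γ).map (dn d P Q n)) (by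
    intro x hx
    obtain ⟨β, hβ, rfl⟩ := Multiset.mem_map.mp hx
    exact h0 β hβ)).2
  rw [hRF F d P Q hN n γ, Multiset.map_map] at this
  rw [this]
  rfl

end

end Pool.Agent.H516.PCF
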