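import Pool.Agent.H516.PCF.Main1

namespace Pool.Agent.H516.PCF

open Polynomial

section
variable {F : Type} [Field F]

lemma isZp_add {p : ℕ} (hp : p.Prime) {x y : ℝ} (hx : IsZp p x) (hy : IsZp p y) : IsZp p (x + y) := by
  obtain ⟨m, hm, z, hz⟩ := hx
  obtain ⟨m', hm', z', hz'⟩ := hy
  refine ⟨m * m', ?_, m' * z + m * z', ?_⟩
  · intro h
    rcases (hp.dvd_mul).mp h with h | h
    · exact hm h
    · exact hm' h
  · push_cast
    rw [← hz, ← hz']
    ring

lemma isZp_neg {p : ℕ} {x : ℝ} (hx : IsZp p x) : IsZp p (-x) := by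
  obtain ⟨m, hm, z, hz⟩ := hx
  exact ⟨m, hm, -z, by push_cast; rw [← hz]; ring⟩

lemma isZp_sub {p : ℕ} (hp : p.Prime) {x y : ℝ} (hx : IsZp p x) (hy : IsZp p y) : IsZp p (x - y) := by
  rw [sub_eq_add_neg]
  exact isZp_add hp hx (isZp_neg hy)

lemma isRat_of_nrm {d : ℕ} {P Q : F[X]} (h : Nrm d P Q) : IsRat d P Q :=
  ⟨h.two_le, h.cop, by rw [h.degP]; exact max_eq_left h.degQ.le⟩

lemma geom_le {d : ℕ} (hd : 2 ≤ d) (n : ℕ) : geom d n ≤ d ^ n := by
  induction n with
  | zero => simp [geom]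
  | succ n ih =>
    have : geom d (n + 1) = geom d n + d ^ n := by
      unfold geom; rw [Finset.sum_range_succ]
    rw [this, pow_succ]
    nlinarith

/-- the local data in the coordinate `1/(x-q)` -/
lemma locD_conj (hNAB : S_NAB) (hGRP : S_GRP) (hRF : S_RF) (hFIB : S_FIB) (hCONJ : S_CONJ) (hCONJN : S_CONJN) (hUQ : S_UQ)
    [CharZero F] [IsAlgClosed F] {p : ℕ} (hp : p.Prime) {w : F → ℝ} (hw : NA p w) {d : ℕ} {P Q : F[X]} {A O : Set F}
    (hN : Nrm d P Q) (hA : Post P Q A) {q : F} (hq : P.eval q = q * Q.eval q) (hQq : Q.eval q ≠ 0) (hqA : q ∈ A)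
    (hpre : ∀ x, P.eval x = q * Q.eval x → x ∈ A)
    (hnr : (wr P Q).eval q / Q.eval q ^ 2 = 0 ∨ 0 ≤ w ((wr P Q).eval q / Q.eval q ^ 2))
    (hdisj : ∀ x ∈ O, x ∉ A)
    (hbwd : ∀ t ∈ O, ∀ x, Q.eval x ≠ 0 → P.eval x / Q.eval x = t → x ∈ O)
    (hzp : ∀ x ∈ O, ∀ y ∈ O, x ≠ y → IsZp p (w (x - y))) (hzq : ∀ x ∈ O, IsZp p (w (x - q)))
    (hinf : O.Infinite) (hunb : ∀ γ ∈ O, ∀ C : ℝ, ∃ n : ℕ, C * (d : ℝ) ^ n ≤ w (en d P Q n γ)) :
    LocD p w d (Pt d P Q q) (Qt d P Q q) {y | y = 0 ∨ q + y⁻¹ ∈ A} ((fun x => (x - q)⁻¹) '' O) := by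
  obtain ⟨b1, b2, b3, b4, b5, b6, b7, b8, b9, b10, b11, b12⟩ := hNAB F p w hp hw
  obtain ⟨hN2, hlead, hcoef, hev, h0P, h0Q, h0W⟩ := hCONJ F d P Q q (isRat_of_nrm hN) hq hQq
  have hQd : Q.coeff d = 0 := coeff_eq_zero_of_natDegree_lt hN.degQ
  have hPd : P.coeff d = P.leadingCoeff := by rw [leadingCoeff, hN.degP]
  have hP0 : P.leadingCoeff ≠ 0 := by
    rw [Ne, leadingCoeff_eq_zero]
    intro h
    have := hN.degP
    rw [h, natDegree_zero] at this
    have := hN.two_le
    omega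
  have hcop : ∀ x, P.eval x = 0 → Q.eval x = 0 → False := by
    intro x h1 h2
    obtain ⟨u, v, huv⟩ := hN.cop
    have := congrArg (eval x) huv
    simp [h1, h2] at this
  have hOq : ∀ x ∈ O, x ≠ q := fun x hx h => hdisj x hx (h ▸ hqA)
  have hOqi : ∀ x ∈ O, (x - q)⁻¹ ≠ 0 := fun x hx => inv_ne_zero (sub_ne_zero.mpr (hOq x hx))
  have hN2A : Post (Pt d P Q q) (Qt d P Q q) {y | y = 0 ∨ q + y⁻¹ ∈ A} := by
    refine ⟨?_, ?_, ?_, ?_⟩
    · have : {y : F | y = 0 ∨ q + y⁻¹ ∈ A} ⊆ {0} ∪ (fun x => (x - q)⁻¹) '' A := by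
        rintro y (hy | hy)
        · left; exact hy
        · right
          refine ⟨_, hy, ?_⟩
          simp
      exact ((Set.finite_singleton 0).union (hA.fin.image _)).subset this
    · intro y hy
      by_cases hy0 : y = 0
      · left; exact hy0
      · right
        obtain ⟨_, _, h3⟩ := hev y hy0
        rw [h3] at hy
        rcases mul_eq_zero.mp hy with h | h
        · exact absurd h (pow_ne_zero _ hy0)
        · exact hA.crit _ h
    · intro y hy
      by_cases hy0 : y = 0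
      · left; exact hy0
      · right
        obtain ⟨_, h2, _⟩ := hev y hy0
        rw [h2] at hy
        rcases mul_eq_zero.mp hy with h | h
        · exact absurd h (pow_ne_zero _ hy0)
        · exact hpre _ (sub_eq_zero.mp h)
    · rintro y (hy | hy) hQy
      · left
        rw [hy, h0P, hQd, zero_div]
      · by_cases hy0 : y = 0
        · left
          rw [hy0, h0P, hQd, zero_div]
        · obtain ⟨h1, h2, _⟩ := hev y hy0
          by_cases hQx : Q.eval (q + y⁻¹) = 0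
          · left
            rw [h1, hQx, mul_zero, zero_div]
          · right
            have hne : P.eval (q + y⁻¹) - q * Q.eval (q + y⁻¹) ≠ 0 := by
              intro h
              apply hQy
              rw [h2, h, mul_zero]
            have : ((Pt d P Q q).eval y / (Qt d P Q q).eval y)⁻¹ = P.eval (q + y⁻¹) / Q.eval (q + y⁻¹) - q := by
              rw [h1, h2, inv_div, mul_div_mul_left _ _ (pow_ne_zero _ hy0), sub_div, mul_div_cancel_right₀ _ hQx]
            rw [this]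
            have h4 := hA.fwd _ hy hQx
            rw [add_sub_cancel]
            exact h4
  refine ⟨hp, hw, hN2, hN2A, ?_, ?_, ?_, ?_, ?_, ?_⟩
  · -- nonrepelling
    rw [hcoef, hlead]
    rcases hnr with h | h
    · left
      rcases div_eq_zero_iff.mp h with h | h
      · rw [h, zero_div]
      · exact absurd h (pow_ne_zero 2 hQq)
    · by_cases hW : (wr P Q).eval q = 0
      · left; rw [hW, zero_div]
      · right
        rw [b5 _ _ hW (pow_ne_zero 2 hQq), b4 _ hQq] at h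
        rw [b5 _ _ hW hQq]
        push_cast at h
        linarith
  · rintro y ⟨x, hx, rfl⟩ (h | h)
    · exact hOqi x hx h
    · simp only [inv_inv, add_sub_cancel] at h
      exact hdisj x hx h
  · rintro t ⟨x₁, hx₁, rfl⟩ y hQy hy
    have hy0 : y ≠ 0 := by
      intro h
      rw [h, h0P, hQd, zero_div] at hy
      exact hOqi x₁ hx₁ hy.symm
    obtain ⟨h1, h2, _⟩ := hev y hy0
    have hQx : Q.eval (q + y⁻¹) ≠ 0 := by
      intro h
      rw [h1, h, mul_zero, zero_div] at hy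
      exact hOqi x₁ hx₁ hy.symm
    have hne : P.eval (q + y⁻¹) - q * Q.eval (q + y⁻¹) ≠ 0 := by
      intro h
      apply hQy
      rw [h2, h, mul_zero]
    rw [h1, h2, mul_div_mul_left _ _ (pow_ne_zero _ hy0)] at hy
    have hfx : P.eval (q + y⁻¹) / Q.eval (q + y⁻¹) = x₁ := by
      have := congrArg (fun z => z⁻¹) hy
      simp only [inv_div, inv_inv] at this
      have h5 : P.eval (q + y⁻¹) / Q.eval (q + y⁻¹) - q = x₁ - q := by
        rw [← this, sub_div, mul_div_cancel_right₀ _ hQx]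
      linear_combination h5
    exact ⟨q + y⁻¹, hbwd x₁ hx₁ _ hQx hfx, by simp⟩
  · rintro y ⟨x, hx, rfl⟩ y' ⟨x', hx', rfl⟩ hne
    have hxx : x ≠ x' := fun h => hne (by rw [h])
    have e1 : (x - q)⁻¹ - (x' - q)⁻¹ = (x' - x) / ((x - q) * (x' - q)) := by
      have := sub_ne_zero.mpr (hOq x hx)
      have := sub_ne_zero.mpr (hOq x' hx')
      field_simp
      ring
    have n1 := sub_ne_zero.mpr (hOq x hx)
    have n2 := sub_ne_zero.mpr (hOq x' hx')
    simp only [e1]
    rw [b5 _ _ (sub_ne_zero.mpr hxx.symm) (mul_ne_zero n1 n2), hw.mul _ _ n1 n2]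
    exact isZp_sub hp (hzp x' hx' x hx hxx.symm) (isZp_add hp (hzq x hx) (hzq x' hx'))
  · rintro γ₂ ⟨γ, hγ, rfl⟩ V
    have hγq := hOq γ hγ
    have hd := hN.two_le
    -- constants
    obtain ⟨n, hn⟩ := hunb γ hγ (V + 2 * |w (Q.eval q) - w P.leadingCoeff| + 2 * |w (q - γ)| + 2 * |w (γ - q)|)
    have hN1 : (1 : ℝ) ≤ (d : ℝ) ^ n := by
      have : (1 : ℝ) ≤ d := by exact_mod_cast (by omega : 1 ≤ d)
      exact one_le_pow₀ this
    obtain ⟨hdn0, hsum⟩ := exists_big hNAB hRF hFIB hp hw hN hA (hdisj γ hγ) n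
    obtain ⟨hcard, hmem, _⟩ := hFIB F d P Q hN n γ
    obtain ⟨hsq, hβq⟩ := hUQ F p w hp hw d P Q hN q hq γ hγq n
    have hg : (geom d n : ℝ) ≤ (d : ℝ) ^ n := by exact_mod_cast geom_le hd n
    have hg0 : (0 : ℝ) ≤ geom d n := by positivity
    obtain ⟨β, hβ, hβV⟩ := exists_ge_of_sum (fib d P Q n γ)
      (fun β => w (dn d P Q n β) + 2 * w (β - q) - 2 * w (γ - q)) V (by rw [hcard]; positivity) (by
        have e : ((fib d P Q n γ).map fun β => w (dn d P Q n β) + 2 * w (β - q) - 2 * w (γ - q)).sum =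
            ((fib d P Q n γ).map fun β => w (dn d P Q n β)).sum + 2 * ((fib d P Q n γ).map fun β => w (β - q)).sum
              - (d : ℝ) ^ n * (2 * w (γ - q)) := by
          have : ((fib d P Q n γ).map fun β => w (dn d P Q n β) + 2 * w (β - q) - 2 * w (γ - q)) =
              ((fib d P Q n γ).map fun β => (w (dn d P Q n β) + 2 * w (β - q)) - (fun _ => 2 * w (γ - q)) β) := rfl
          rw [this, Multiset.sum_map_sub, Multiset.sum_map_add, Multiset.sum_map_mul_left]
          simp [hcard]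
        rw [e, hsum, hsq, hcard]
        push_cast
        have a1 := neg_abs_le (w (Q.eval q) - w P.leadingCoeff)
        have a2 := neg_abs_le (w (q - γ))
        have a3 := le_abs_self (w (γ - q))
        have a4 := abs_nonneg (w (Q.eval q) - w P.leadingCoeff)
        have a5 := abs_nonneg (w (q - γ))
        have a6 := abs_nonneg (w (γ - q))
        have c1 : -((d : ℝ) ^ n * |w (Q.eval q) - w P.leadingCoeff|) ≤ geom d n * (w (Q.eval q) - w P.leadingCoeff) := by
          nlinarith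
        have c2 : -((d : ℝ) ^ n * |w (q - γ)|) ≤ w (q - γ) := by nlinarith
        have c3 : (d : ℝ) ^ n * w (γ - q) ≤ (d : ℝ) ^ n * |w (γ - q)| := by nlinarith
        nlinarith)
    obtain ⟨hqn, hfn⟩ := (hmem β).1 hβ
    obtain ⟨k1, k2, k3⟩ := hCONJN F d P Q q hN hq n β (hβq β hβ) hqn (by rw [hfn]; exact hγq)
    refine ⟨n, (β - q)⁻¹, ?_, ?_⟩
    · obtain ⟨_, hmem2, _⟩ := hFIB F d _ _ hN2 n (γ - q)⁻¹
      exact (hmem2 _).2 ⟨k1, by rw [k2, hfn]⟩
    · rw [k3, hfn]
      have n1 := sub_ne_zero.mpr (hβq β hβ)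
      have n2 := sub_ne_zero.mpr hγq
      rw [b5 _ _ (mul_ne_zero (hdn0 β hβ) (pow_ne_zero 2 n1)) (pow_ne_zero 2 n2), hw.mul _ _ (hdn0 β hβ) (pow_ne_zero 2 n1),
        b4 _ n1, b4 _ n2]
      push_cast
      linarith
  · apply hinf.image
    intro x hx y hy hxy
    have := inv_injective hxy
    linear_combination this

end

end Pool.Agent.H516.PCF
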