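import Pool.Agent.H516.PCF.Main2

namespace Pool.Agent.H516.PCF

open Polynomial NumberField

theorem main (hNAB : S_NAB) (hGRP : S_GRP) (hCMP : S_CMP) (hMAP : S_MAP) (hRF : S_RF) (hFIB : S_FIB) (hCONJ : S_CONJ)
    (hCONJN : S_CONJN) (hUQ : S_UQ) (hNREP : S_NREP) (hGLOB : S_GLOB) (hVAL : S_VAL) (hLOC : S_LOC) : S_MAIN := by
  intro K _ _ F _ _ _ _ d P Q A hN hA hWs hQs hHs hfix O t₀ ht₀ hinf hdisj hbwd htame
  have hchar : CharZero F := charZero_of_injective_algebraMap (algebraMap K F).injective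
  have htA : t₀ ∉ A := fun h => hdisj t₀ h ht₀
  obtain ⟨v, hv⟩ := hGLOB K d P Q A hN hA hWs hQs t₀ htA
  obtain ⟨p, hp, w, hw, c, hc, hwv⟩ := hVAL K F v
  obtain ⟨hen, hN', hpq, hPost⟩ := hMAP K F (algebraMap K F) d P Q hN hWs hQs
  have hA' := hPost A hA
  set P' := P.map (algebraMap K F) with hP'
  set Q' := Q.map (algebraMap K F) with hQ'
  obtain ⟨b1, b2, b3, b4, b5, b6, b7, b8, b9, b10, b11, b12⟩ := hNAB F p w hp hw
  have htA' : algebraMap K F t₀ ∉ algebraMap K F '' A := by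
    rintro ⟨x, hx, h⟩
    exact htA ((algebraMap K F).injective h ▸ hx)
  have hOA : ∀ x ∈ O, x ∉ algebraMap K F '' A := by
    rintro _ hx ⟨x, hxA, rfl⟩
    exact hdisj x hxA hx
  -- growth at `t₀`
  have h0 : ∀ C : ℝ, ∃ n : ℕ, C * (d : ℝ) ^ n ≤ w (en d P' Q' n (algebraMap K F t₀)) := by
    intro C
    obtain ⟨n, hn⟩ := hv (c * C)
    refine ⟨n, ?_⟩
    have hne : en d P Q n t₀ ≠ 0 := by
      intro h
      have := en_ne_zero hGRP hN' hA' htA' n
      rw [← hen, h, map_zero] at this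
      exact this rfl
    obtain ⟨_, h2⟩ := hwv _ hne
    rw [h2, Real.exp_le_exp] at hn
    rw [← hen]
    have : c * (C * (d : ℝ) ^ n) ≤ c * w ((algebraMap K F) (en d P Q n t₀)) := by linarith
    exact le_of_mul_le_mul_left this hc
  have h1 : ∀ γ ∈ O, ∀ C : ℝ, ∃ n : ℕ, C * (d : ℝ) ^ n ≤ w (en d P' Q' n γ) := fun γ hγ =>
    unb_transfer hNAB hGRP hCMP hp hw hN' hA' htA' (hOA γ hγ) h0
  have hint : ∀ x : K, x ≠ 0 → ∃ z : ℤ, w (algebraMap K F x) = z := fun x hx => (hwv x hx).1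
  have hzp : ∀ x ∈ O, ∀ y ∈ O, x ≠ y → IsZp p (w (x - y)) := fun x hx => (htame p hp w hw hint x hx).1
  by_cases hnr : Q'.coeff (d - 1) = 0 ∨ w P'.leadingCoeff ≤ w (Q'.coeff (d - 1))
  · refine hLOC F p w d P' Q' (algebraMap K F '' A) O ⟨hp, hw, hN', hA', hnr, hOA, hbwd, hzp, ?_, hinf⟩
    intro γ hγ V
    obtain ⟨n, hn⟩ := h1 γ hγ V
    obtain ⟨hdn0, hsum⟩ := exists_big hNAB hRF hFIB hp hw hN' hA' (hOA γ hγ) n
    obtain ⟨hcard, hmem, _⟩ := hFIB F d P' Q' hN' n γ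
    have hd := hN.two_le
    obtain ⟨β, hβ, hV⟩ := exists_ge_of_sum (fib d P' Q' n γ) (fun β => w (dn d P' Q' n β)) V
      (by rw [hcard]; positivity) (by rw [hsum, hcard]; push_cast; exact hn)
    exact ⟨n, β, hβ, hV⟩
  · push Not at hnr
    obtain ⟨hb0, hbw⟩ := hnr
    obtain ⟨q, hq, hQq, hmul⟩ := hNREP F p w hp hw d P' Q' hN' hb0 hbw
    -- `q` comes from `K`
    have hH0 : P - X * Q ≠ 0 := by
      intro h
      have h2 := congrArg (fun R => (R.map (algebraMap K F)).coeff d) h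
      have h3 : P'.coeff d = Q'.coeff (d - 1) := by
        have hd : d = (d - 1) + 1 := by have := hN.two_le; omega
        have h4 : (P' - X * Q').coeff d = 0 := by
          rw [hP', hQ', ← Polynomial.map_X (algebraMap K F), ← Polynomial.map_mul, ← Polynomial.map_sub, h]
          simp
        rw [coeff_sub, hd, coeff_X_mul] at h4
        rw [← hd] at h4
        exact sub_eq_zero.mp h4
      rw [leadingCoeff, hN'.degP, h3] at hbw
      exact lt_irrefl _ hbw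
    obtain ⟨q₀, hq₀⟩ : ∃ q₀ : K, algebraMap K F q₀ = q := by
      have hroot : q ∈ ((P - X * Q).map (algebraMap K F)).roots := by
        rw [mem_roots (Polynomial.map_ne_zero hH0)]
        simp only [IsRoot, Polynomial.map_sub, Polynomial.map_mul, Polynomial.map_X, eval_sub, eval_mul, eval_X]
        rw [← hP', ← hQ', hq, sub_self]
      rw [hHs.roots_map] at hroot
      obtain ⟨q₀, _, h⟩ := Multiset.mem_map.mp hroot
      exact ⟨q₀, h⟩
    have hq₀' : P.eval q₀ = q₀ * Q.eval q₀ := by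
      apply (algebraMap K F).injective
      rw [map_mul, ← eval_map_apply, ← eval_map_apply, hq₀]
      exact hq
    obtain ⟨hqA, hpre⟩ := hfix q₀ hq₀'
    refine hLOC F p w d _ _ _ _ (locD_conj hNAB hGRP hRF hFIB hCONJ hCONJN hUQ hp hw hN' hA' hq hQq
      ⟨q₀, hqA, hq₀⟩ (fun x hx => hpre x (by rw [hq₀]; exact hx)) hmul hOA hbwd hzp ?_ hinf h1)
    intro x hx
    rw [← hq₀]
    exact (htame p hp w hw hint x hx).2 q₀ (fun h => hdisj q₀ hqA (h ▸ hx))

end Pool.Agent.H516.PCF
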