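import Pool.Agent.H516.PCF.Defs

/-! Statements for the theorem on postcritically finite towers (MP_392fd3_nt).
Every `S_X : Prop` is a self-contained claim with its paper proof in the docstring. -/

namespace Pool.Agent.H516.PCF

open Polynomial

/-! ### A. Iterates (algebra) -/

/-- Degrees of the iterates.  `a := P.leadingCoeff`.  Proof.  Induction on `n`; write
`A = pn n, B = qn n`, `N = d^n`, `deg A = N > deg B`.  In `hom d P A B = Σ p_i A^i B^(d-i)` the term `i = d`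
has degree `dN` and leading coefficient `a (lead A)^d`, the others have smaller degree.  In
`hom d Q A B` (here `q_d = 0` because `deg Q < d`) every term has degree `≤ iN + (d-i)(N-1) < dN`, and only
`i = d-1` can reach degree `dN - 1`.  `hom d Q A B ≠ 0`: else `hom d P A B` and `0` ... see coprimality.
Coprimality: pass to the algebraic closure (`Polynomial.map`, `IsCoprime` can be tested by common roots there,
or use `Polynomial.isCoprime_map`): if `x` is a common root of `hom d P A B, hom d Q A B`: if `B(x) ≠ 0` then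
`P, Q` have the common root `A(x)/B(x)`, contradiction; if `B(x) = 0` then `A(x) ≠ 0` and
`hom d P A B (x) = a A(x)^d ≠ 0`.  (`qn n ≠ 0`: else it is coprime to `pn n` only if `pn n` is a unit, but its degree is
`d^n ≥ 1`.)  Last clause: let `β_n` be the coefficient of `qn n` in degree `d^n - 1`; then
`β_(n+1) = Q.coeff (d-1) * (lead pn n)^(d-1) * β_n`, and `lead pn (n+1) = a (lead pn n)^d`, so
`β_n a^n = (lead pn n) Q.coeff(d-1)^n` by induction. -/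
def S_DEG : Prop := ∀ (k : Type) [Field k] (d : ℕ) (P Q : k[X]), Nrm d P Q → ∀ n : ℕ,
  (pn d P Q n).natDegree = d ^ n ∧ (pn d P Q n).leadingCoeff = P.leadingCoeff ^ geom d n ∧
  (qn d P Q n).natDegree < d ^ n ∧ qn d P Q n ≠ 0 ∧ IsCoprime (pn d P Q n) (qn d P Q n) ∧
  (∀ t : k, (gp d P Q n t).natDegree = d ^ n ∧
    (gp d P Q n t).leadingCoeff = P.leadingCoeff ^ geom d n) ∧
  ((qn d P Q n).natDegree + 1 = d ^ n →
    (qn d P Q n).leadingCoeff * P.leadingCoeff ^ n =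
      (pn d P Q n).leadingCoeff * Q.coeff (d - 1) ^ n)

/-- Values of the iterates.  Proof.  `g := fn n x = A(x)/B(x)`, `A = pn n`, `B = qn n`.  For `R` of degree `≤ d`,
`(hom d R A B)(x) = B(x)^d R(g)` if `B(x) ≠ 0`, and `= R.coeff d * A(x)^d` if `B(x) = 0` (`0^0 = 1`); `Q.coeff d = 0`.
Wronskian: for `G = hom d R A B = Σ r_i A^i B^(d-i)`, derivative `G' = G_X A' + G_Y B'` with
`G_X = Σ i r_i A^(i-1) B^(d-i)`, `G_Y = Σ (d-i) r_i A^i B^(d-i-1)`, and `A G_X + B G_Y = d G` (Euler).  At `x`: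
`B G' = G_X (A' B - A B') + d G B'`, `G_X(x) = B^(d-1) R'(g)`, `G(x) = B^d R(g)`.  Hence
`B (P_h' Q_h - P_h Q_h') = (A'B - AB') (P_X Q_h - P_h Q_X) = (A'B-AB') B^(2d-1) (P'(g)Q(g) - P(g)Q'(g))`. -/
def S_EVAL : Prop := ∀ (k : Type) [Field k] (d : ℕ) (P Q : k[X]), Nrm d P Q → ∀ (n : ℕ) (x : k),
  ((qn d P Q n).eval x ≠ 0 →
    (pn d P Q (n + 1)).eval x = (qn d P Q n).eval x ^ d * P.eval (fn d P Q n x) ∧
    (qn d P Q (n + 1)).eval x = (qn d P Q n).eval x ^ d * Q.eval (fn d P Q n x) ∧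
    (wr (pn d P Q (n + 1)) (qn d P Q (n + 1))).eval x =
      (qn d P Q n).eval x ^ (2 * d - 2) * (wr P Q).eval (fn d P Q n x) *
        (wr (pn d P Q n) (qn d P Q n)).eval x) ∧
  ((qn d P Q n).eval x = 0 → (qn d P Q (n + 1)).eval x = 0 ∧
    (pn d P Q (n + 1)).eval x = P.leadingCoeff * (pn d P Q n).eval x ^ d)

/-- Degree of a Wronskian in characteristic 0.  Proof.  The leading terms: with `U = u x^m + ..`, `V = v x^l + ..`,
`l < m`: the coefficient of `U'V - UV'` in degree `m + l - 1` is `(m - l) u v ≠ 0` and there is no term of higher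
degree. -/
def S_WDEG : Prop := ∀ (k : Type) [Field k] [CharZero k] (U V : k[X]), V ≠ 0 → V.natDegree < U.natDegree →
  wr U V ≠ 0 ∧ (wr U V).natDegree + 1 = U.natDegree + V.natDegree ∧
  (wr U V).leadingCoeff = ((U.natDegree : k) - V.natDegree) * U.leadingCoeff * V.leadingCoeff

/-- Composition of iterates.  Proof.  `it (m+1) = (hom d P (it m)., hom d Q (it m).)`.  First show
`hom (d^m) (pn m) (pn n) (qn n) = pn (m+n)` and the same for `qn`, by induction on `m`, using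
`hom d R (hom e A U V) (hom e B U V) = hom (d e) (hom d R A B) U V` for polynomials `A, B` of degree `≤ e` and `R` of degree
`≤ d` (both sides are polynomial expressions; e.g. check `hom (d e) (A^i B^(d-i)) U V = (hom e A U V)^i (hom e B U V)^(d-i)`
by multiplicativity `hom (a+b) (R S) U V = hom a R U V * hom b S U V`, and additivity).  Then
`gp (m+n) t = hom (d^m) (gp m t) (pn n) (qn n)` by linearity, `gp m t = C a_m * Π_{s ∈ fib m t} (X - C s)`
(algebraically closed; degree `d^m`), and `hom 1 (X - C s) U V = U - C s * V`, so by multiplicativity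
`gp (m+n) t = C a_m Π_s gp n s`.  Roots of a product of nonzero polynomials. -/
def S_SEMI : Prop := ∀ (k : Type) [Field k] [IsAlgClosed k] (d : ℕ) (P Q : k[X]), Nrm d P Q →
  ∀ (m n : ℕ) (t : k),
    gp d P Q (m + n) t = C (P.leadingCoeff ^ geom d m) * ((fib d P Q m t).map fun s => gp d P Q n s).prod ∧
    fib d P Q (m + n) t = (fib d P Q m t).bind fun s => fib d P Q n s

/-- Forward orbits stay in `A`.  Proof.  `qn (n+1) x ≠ 0` implies `qn n x ≠ 0`, `Q (fn n x) ≠ 0` and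
`fn (n+1) x = P(fn n x)/Q(fn n x)` (`S_EVAL`).  Induction on `n` with `Post.fwd`; `fn 0 x = x`.  For the Wronskian:
`wr (pn 0) (qn 0) = 1`, and `wr (n+1) (x) = 0` implies `(wr P Q)(fn n x) = 0`, so `fn n x ∈ A` by `Post.crit` and `fn (n+1) x ∈ A`
by `Post.fwd`, or `wr n (x) = 0`, so `fn n x ∈ A` by induction and again `Post.fwd`. -/
def S_ORB : Prop := ∀ (k : Type) [Field k] (d : ℕ) (P Q : k[X]) (A : Set k), Nrm d P Q → Post P Q A →
  ∀ (n : ℕ) (x : k), (qn d P Q n).eval x ≠ 0 →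
    (x ∈ A → fn d P Q n x ∈ A) ∧ ((wr (pn d P Q n) (qn d P Q n)).eval x = 0 → fn d P Q n x ∈ A) ∧
    (∀ i ≤ n, (qn d P Q i).eval x ≠ 0)

/-- Fibres.  Proof.  `card = natDegree = d^n` (algebraically closed).  `x ∈ fib n t` iff
`pn n x = t * qn n x`; if `qn n x = 0` then `pn n x = 0`, contradicting coprimality; so iff `qn n x ≠ 0` and
`fn n x = t`.  If `t ∉ A` and `x ∈ fib n t`: `x ∉ A` by `S_ORB` and `(wr ..)(x) ≠ 0` by `S_ORB`.  If `x` were a multiple root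
of `gp n t = U` then `U(x) = U'(x) = 0`; as `wr U (qn n) = wr (pn n) (qn n)` (bilinear, antisymmetric), its value at `x` is
`U'(x) qn(x) - U(x) qn'(x) = 0`, contradiction; so `Nodup`. -/
def S_FIB : Prop := ∀ (k : Type) [Field k] [IsAlgClosed k] [CharZero k] (d : ℕ) (P Q : k[X]), Nrm d P Q →
  ∀ (n : ℕ) (t : k), (fib d P Q n t).card = d ^ n ∧
    (∀ x, x ∈ fib d P Q n t ↔ ((qn d P Q n).eval x ≠ 0 ∧ fn d P Q n x = t)) ∧
    ∀ A, Post P Q A → t ∉ A → (fib d P Q n t).Nodup ∧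
      ∀ x ∈ fib d P Q n t, x ∉ A ∧ (wr (pn d P Q n) (qn d P Q n)).eval x ≠ 0

/-! ### B. The product of the derivatives over a fibre -/

/-- The product over a fibre of a polynomial `R` with all roots known.  Proof.  `k` algebraically closed,
`gp i t = C a_i * Π_{δ ∈ fib i t} (X - C δ)`, `a_i = a^(geom d i)`, `card = d^i =: N`; `R = C r * Π_{c ∈ R.roots} (X - C c)`.
`Π_δ R(δ) = r^N Π_c Π_δ (δ - c) = r^N Π_c (-1)^N Π_δ (c - δ) = r^N Π_c (-1)^N gp i t (c) / a_i`. -/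
def S_CF : Prop := ∀ (k : Type) [Field k] [IsAlgClosed k] (d : ℕ) (P Q : k[X]), Nrm d P Q →
  ∀ (i : ℕ) (t : k) (R : k[X]), R ≠ 0 → ((fib d P Q i t).map fun δ => R.eval δ).prod = cf d P Q i t R

/-- Product formula for the derivatives.  Proof.  By `S_EVAL` (and induction), for `x` with `qn n x ≠ 0`:
`dn n x = Π_{j<n} h (fn j x)` with `h y = (wr P Q)(y) / Q(y)^2`.  By `S_SEMI` (`n = (n-j) + j`),
`fib n t = (fib (n-j) t).bind (fib j)`, and for `x ∈ fib j s` one has `fn j x = s` (`S_FIB`), `card (fib j s) = d^j`; so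
`Π_{x ∈ fib n t} h (fn j x) = Π_{s ∈ fib (n-j) t} h(s)^(d^j) = (cf (n-j) t (wr P Q) / cf (n-j) t Q ^ 2)^(d^j)` by `S_CF`.
Substitute `j = n - 1 - i` in `en`. (Only membership in the fibre is used, so this holds for all `t`.) -/
def S_RF : Prop := ∀ (k : Type) [Field k] [IsAlgClosed k] [CharZero k] (d : ℕ) (P Q : k[X]), Nrm d P Q →
  ∀ (n : ℕ) (t : k), ((fib d P Q n t).map (dn d P Q n)).prod = en d P Q n t

/-- The numbers `en n t` lie in a finitely generated group.  Proof.  Let `Θ` consist of (the units given by) `-1`,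
`a = P.leadingCoeff`, `(wr P Q).leadingCoeff` (nonzero by `S_WDEG`), `Q.leadingCoeff`, and for all `x ∈ A` (finite):
`x - t`, and `Q(x)` if it is nonzero, `P(x)` if `Q(x) = 0` (then `P(x) ≠ 0`).  For `x ∈ A`, by induction on `i`
(`S_EVAL`, `S_ORB`): if `qn i x ≠ 0` then `qn i x ∈ ⟨Θ⟩`; if `qn i x = 0` then `pn i x ∈ ⟨Θ⟩`.  Hence
`gp i t (x) = qn i x * (fn i x - t)` resp. `= pn i x` is in `⟨Θ⟩` for every `x ∈ A`.  The roots of `wr P Q` and of `Q` are in `A`. -/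
def S_GRP : Prop := ∀ (k : Type) [Field k] [CharZero k] (d : ℕ) (P Q : k[X]) (A : Set k), Nrm d P Q →
  Post P Q A → ∀ t, t ∉ A → ∃ Θ : Finset kˣ, ∀ n, ∃ u ∈ Subgroup.closure (Θ : Set kˣ), (u : k) = en d P Q n t

/-- Dependence on `t`.  Proof.  `ν (gp i t c) ≤ B * ν (gp i t' c)` for every `c ∈ A`: if `qn i c ≠ 0` then `gp i t c = qn i c *
(fn i c - t)` with `fn i c ∈ A` (`S_ORB`), else both sides involve `pn i c` only (`B ≥ 1`).  For `q ∈ Q.roots` and `i ≥ 1`,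
`qn i q = 0` (`S_EVAL`), so `cf i t Q = cf i t' Q`.  `(wr P Q).roots` has at most `2d - 2` elements (`S_WDEG`), so
`ν (cf i t (wr P Q)) ≤ B^(2d-2) ν (cf i t' (wr P Q))`, and `ν (en n t) ≤ B^E ν (en n t')` with
`E = (2d-2) Σ_{i<n} d^(n-1-i) = 2 (d^n - 1) ≤ 2 d^n`. -/
def S_CMP : Prop := ∀ (k : Type) [Field k] [CharZero k] (d : ℕ) (P Q : k[X]) (A : Set k), Nrm d P Q →
  Post P Q A → ∀ (ν : k →*₀ ℝ), (∀ x, 0 ≤ ν x) → ∀ (B : ℝ), 1 ≤ B → ∀ t t', (∀ x ∈ A, ν (x - t) ≤ B * ν (x - t')) →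
  ∀ n, ν (en d P Q n t) ≤ ν (en d P Q n t') * B ^ (2 * d ^ n)

/-- Compatibility with field homomorphisms.  Proof.  `hom, it, wr, gp` commute with `Polynomial.map σ`; leading
coefficients too (`σ` is injective); `(R.map σ).roots = R.roots.map σ` for split `R` (`Polynomial.roots_map` or
`Polynomial.Splits.roots_map`); `eval` commutes. -/
def S_MAP : Prop := ∀ (k : Type) [Field k] [CharZero k] (L : Type) [Field L] (σ : k →+* L) (d : ℕ) (P Q : k[X]),
  Nrm d P Q → (wr P Q).Splits → Q.Splits →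
  (∀ n t, σ (en d P Q n t) = en d (P.map σ) (Q.map σ) n (σ t)) ∧
  Nrm d (P.map σ) (Q.map σ) ∧
  (∀ n, pn d (P.map σ) (Q.map σ) n = (pn d P Q n).map σ ∧ qn d (P.map σ) (Q.map σ) n = (qn d P Q n).map σ) ∧
  ∀ A, Post P Q A → Post (P.map σ) (Q.map σ) (σ '' A)

/-! ### C. The archimedean estimate and the product formula -/

/-- Area inequality.  Proof.  Let `F(x) = U(x)/V(x)` on the open set `W = {V ≠ 0, wr U V ≠ 0}` (complement of a finite
set); `F' = (wr U V)/V^2 ≠ 0` there.  Every point of `W` has an open neighbourhood on which `F` is injective (inverse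
function theorem, `HasStrictDerivAt`), so (Lindelof) `W` is a countable disjoint union of measurable sets `W_i` with `F` injective on `W_i`.
With `ω(x) = (1+‖x‖)^(-4)` and `g = ω / ‖F'‖^2`: the change of variables formula
`MeasureTheory.lintegral_image_eq_lintegral_abs_det_fderiv_mul` (the real determinant of multiplication by `F'` on `ℂ` is
`‖F'‖^2`) gives `∫⁻_{t ∈ F(W_i)} g(F_i⁻¹ t) = ∫⁻_{W_i} ω`.  Sum over `i`:
`∫⁻_t Σ'_{x ∈ W, F(x) = t} g(x) = ∫⁻_W ω ≤ I := ∫⁻ (1+‖x‖)^(-4) < ∞` (`integrable_one_add_norm`, real dimension 2).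
If for all `t` in the disc of radius `r` outside the finite set `T` some finite subset of the fibre had sum `> C₀/r^2`, then
the left side would be `≥ π r^2 C₀/r^2 = π C₀`; so `C₀ := I / π + 1` works. -/
def S_AREA : Prop := ∃ C₀ : ℝ, 0 < C₀ ∧ ∀ (U V : ℂ[X]), wr U V ≠ 0 → ∀ (T : Set ℂ), T.Finite → ∀ (t₀ : ℂ) (r : ℝ), 0 < r →
  ∃ t, ‖t - t₀‖ < r ∧ t ∉ T ∧ ∀ s : Finset ℂ,
    (∀ x ∈ s, V.eval x ≠ 0 ∧ U.eval x / V.eval x = t ∧ (wr U V).eval x ≠ 0) →
    ∑ x ∈ s, ((1 + ‖x‖) ^ 4 * ‖(wr U V).eval x / V.eval x ^ 2‖ ^ 2)⁻¹ ≤ C₀ / r ^ 2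

/-- Mahler measure bound.  Proof.  `1 + ‖β‖ ≤ 2 max 1 ‖β‖`, and
`Π_{β ∈ roots} max 1 ‖β‖ = M(gp n t) / ‖a‖^(geom d n)` (`Polynomial.mahlerMeasure_eq_leadingCoeff_mul_prod_roots`, `S_DEG`),
`M ≤ ‖·‖₁` := sum of the norms of the coefficients (`mahlerMeasure_le_sum_norm_coeff`).  With `H_n := max 1 (max ‖pn n‖₁ ‖qn n‖₁)` and
`h := max 1 (max ‖P‖₁ ‖Q‖₁)`: `‖R S‖₁ ≤ ‖R‖₁ ‖S‖₁`, so `H_(n+1) ≤ h H_n^d`, hence `H_n ≤ h^(geom d n) ≤ h^(d^n)` (`geom d n ≤ d^n` for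
`d ≥ 2`).  Finally `‖gp n t‖₁ ≤ (1 + ‖t‖) H_n` and `‖a‖^(-geom d n) ≤ (max 1 ‖a‖⁻¹)^(d^n)`. -/
def S_MAH : Prop := ∀ (d : ℕ) (P Q : ℂ[X]), Nrm d P Q → ∀ (t₀ : ℂ) (r : ℝ), ∃ C : ℝ, 1 ≤ C ∧ ∀ (n : ℕ) (t : ℂ), ‖t - t₀‖ < r →
  ((fib d P Q n t).map fun β => 1 + ‖β‖).prod ≤ C ^ (d ^ n)

/-- Archimedean lower bound.  Proof.  Let `r > 0` with `r ≤ ‖x - t₀‖` for all `x ∈ A`.  By `S_AREA` with
`U = pn n, V = qn n, T = A` there is `t ∉ A` with `‖t-t₀‖ < r` and (`fib n t` has `N = d^n` distinct elements, `S_FIB`)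
`Σ_{β ∈ fib n t} y_β ≤ C₁ = C₀/r^2`, `y_β = (1+‖β‖)^(-4) ‖dn n β‖^(-2)`.  AM-GM: `Π y_β ≤ (C₁/N)^N`.  So
`‖en n t‖^2 = Π ‖dn n β‖^2 ≥ Π (1+‖β‖)^(-4) (N/C₁)^N ≥ (C₂^(-4) N / C₁)^N` (`S_RF`, `S_MAH`).  By `S_CMP` with `ν = ‖·‖`, `B = 2`
(`‖x - t‖ ≤ ‖x-t₀‖ + r ≤ 2 ‖x - t₀‖`), `‖en n t₀‖ ≥ 2^(-2N) ‖en n t‖ ≥ exp (N ((n/2) log d - C))`. -/
def S_ARCH : Prop := ∀ (d : ℕ) (P Q : ℂ[X]) (A : Set ℂ), Nrm d P Q → Post P Q A → ∀ t₀, t₀ ∉ A →
  ∃ C : ℝ, ∀ n : ℕ, Real.exp ((d : ℝ) ^ n * (n / 2 * Real.log d - C)) ≤ ‖en d P Q n t₀‖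

/-- Consequence of the product formula.  Proof.  `NumberField.prod_abs_eq_one`.  For `u ∈ ⟨Θ⟩` and a finite place `v` outside the
finite set `S = {v : ∃ θ ∈ Θ, v θ ≠ 1}` (`FinitePlace.hasFiniteMulSupport`) one has `v u = 1`.  For `n` large `c n > 0`, the
product over the infinite places of `w (e n) ^ w.mult` is `≥ exp (N n * c n) > 1` (at least one factor, all `≥ 1`), so
`Π_{v ∈ S} v (e n) ≤ exp (-(N n * c n))`; `S` is nonempty and some `v ∈ S` has `v (e n) ≤ exp (-(N n * c n / #S))`.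
Pigeonhole: one `v ∈ S` works for infinitely many `n`. -/
def S_PF : Prop := ∀ (K : Type) [Field K] [NumberField K] (Θ : Finset Kˣ) (e : ℕ → K),
  (∀ n, ∃ u ∈ Subgroup.closure (Θ : Set Kˣ), (u : K) = e n) → ∀ (N c : ℕ → ℝ), (∀ n, 0 < N n) →
  Filter.Tendsto c Filter.atTop Filter.atTop →
  (∀ φ : K →+* ℂ, ∀ n, Real.exp (N n * c n) ≤ ‖φ (e n)‖) →
  ∃ v : NumberField.FinitePlace K, ∀ C : ℝ, ∃ n, v (e n) ≤ Real.exp (-(C * N n))

/-- Global theorem.  Proof.  Combine `S_GRP` (over `K`), `S_ARCH` for each of the finitely many embeddings `φ : K →+* ℂ` (`S_MAP`;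
`φ t₀ ∉ φ '' A`), `S_PF` with `N n = d^n`, `c n = n/2 log d - max_φ C_φ`. -/
def S_GLOB : Prop := ∀ (K : Type) [Field K] [NumberField K] (d : ℕ) (P Q : K[X]) (A : Set K), Nrm d P Q →
  Post P Q A → (wr P Q).Splits → Q.Splits → ∀ t₀, t₀ ∉ A →
  ∃ v : NumberField.FinitePlace K, ∀ C : ℝ, ∃ n : ℕ, v (en d P Q n t₀) ≤ Real.exp (-(C * (d : ℝ) ^ n))

end Pool.Agent.H516.PCF
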